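import Pool.Agent.TH254.DK.Core

/-!
Modules: the members of the finest decomposition are submodules, finitely many for finitely
generated modules, and isometries between orthogonal summands permute them.
-/

set_option autoImplicit false

namespace Pool.Agent.TH254.DK

universe u v w x

/-- a permutation which extends a class preserving bijection between subsets -/
lemma exists_perm {X : Type u} [Finite X] (r : Setoid X) (p q : X → Prop)
    (σ : {x // p x} ≃ {x // q x}) (h : ∀ x : {x // p x}, r (x : X) (σ x : X)) :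
    ∃ π : Equiv.Perm X, (∀ x : {x // p x}, π (x : X) = (σ x : X)) ∧ ∀ x, r x (π x) := by
  classical
  have hcl : ∀ x : {x // p x}, (Quotient.mk r (σ x : X)) = Quotient.mk r (x : X) :=
    fun x => (Quotient.sound (h x)).symm
  let st : ∀ t : Quotient r, {x : {x : X // Quotient.mk r x = t} // p x} ≃
      {x : {x : X // Quotient.mk r x = t} // q x} := fun t =>
    { toFun := fun x => ⟨⟨(σ ⟨x.1.1, x.2⟩ : X), by rw [hcl]; exact x.1.2⟩, (σ ⟨x.1.1, x.2⟩).2⟩
      invFun := fun x => ⟨⟨(σ.symm ⟨x.1.1, x.2⟩ : X), by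
        have := hcl (σ.symm ⟨x.1.1, x.2⟩)
        rw [Equiv.apply_symm_apply] at this
        rw [← this]; exact x.1.2⟩, (σ.symm ⟨x.1.1, x.2⟩).2⟩
      left_inv := by
        intro x
        apply Subtype.ext
        apply Subtype.ext
        simp
      right_inv := by
        intro x
        apply Subtype.ext
        apply Subtype.ext
        simp }
  let E : (Σ t : Quotient r, {x : X // Quotient.mk r x = t}) ≃ X :=
    Equiv.sigmaFiberEquiv (Quotient.mk r)
  let π : Equiv.Perm X := E.symm.trans ((Equiv.sigmaCongrRight fun t =>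
    (st t).extendSubtype).trans E)
  have hπ : ∀ x, π x = (((st (Quotient.mk r x)).extendSubtype ⟨x, rfl⟩ :
      {y : X // Quotient.mk r y = Quotient.mk r x}) : X) := fun x => rfl
  refine ⟨π, ?_, ?_⟩
  · intro x
    rw [hπ, Equiv.extendSubtype_apply_of_mem (st (Quotient.mk r (x : X))) ⟨(x : X), rfl⟩ x.2]
    rfl
  · intro x
    rw [hπ]
    exact Quotient.exact (((st (Quotient.mk r x)).extendSubtype ⟨x, rfl⟩).2).symm

variable {M : Type v} {B : Type u} [AddCommGroup M] [AddCommGroup B]
variable {A : Type w} [Ring A] [Module A M]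

namespace Core

variable (c : Core M B) (hsm : ∀ (a : A) (x y : M), c.b x y = 0 → c.b (a • x) y = 0)

/-- the members of the finest decomposition as submodules -/
def C (i : c.I) : Submodule A M :=
  { c.P i with smul_mem' := fun a _ hx => c.dec_P.map_mem (fun y => a • y) (hsm a) hx }

lemma mem_C (i : c.I) (x : M) : x ∈ c.C hsm i ↔ x ∈ c.P i := Iff.rfl

lemma C_orth {i j : c.I} (hij : i ≠ j) {x y : M} (hx : x ∈ c.C hsm i) (hy : y ∈ c.C hsm j) :
    c.b x y = 0 := c.P_orth hij hx hy

lemma C_ne_bot (i : c.I) : c.C hsm i ≠ ⊥ := by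
  intro h
  apply c.P_ne_bot i
  rw [eq_bot_iff]
  intro x hx
  have : x ∈ c.C hsm i := hx
  rw [h] at this
  simpa using this

lemma C_sup : ⨆ i, c.C hsm i = ⊤ := by
  rw [eq_top_iff]
  intro x _
  have h := c.P_sup x
  induction h using AddSubgroup.iSup_induction' with
  | hp i x hx => exact (le_iSup (c.C hsm) i) hx
  | h1 => exact Submodule.zero_mem _
  | hadd x y _ _ hx hy => exact Submodule.add_mem _ (hx trivial) (hy trivial)

/-- decompositions into submodules -/
lemma dec_of_submodule {J : Type x} (N : J → Submodule A M)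
    (h1 : ∀ i j, i ≠ j → ∀ x ∈ N i, ∀ y ∈ N j, c.b x y = 0) (h2 : ⨆ j, N j = ⊤) :
    c.Dec (fun j => (N j).toAddSubgroup) := by
  refine ⟨h1, fun x => ?_⟩
  have h : x ∈ ⨆ j, N j := by rw [h2]; exact Submodule.mem_top
  induction h using Submodule.iSup_induction' with
  | mem i x hx => exact (le_iSup (fun j => (N j).toAddSubgroup) i) hx
  | zero => exact AddSubgroup.zero_mem _
  | add x y _ _ hx hy => exact AddSubgroup.add_mem _ hx hy

lemma C_finest {J : Type x} (N : J → Submodule A M)
    (h1 : ∀ i j, i ≠ j → ∀ x ∈ N i, ∀ y ∈ N j, c.b x y = 0) (h2 : ⨆ j, N j = ⊤) :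
    ∃ f : c.I → J, ∀ i, c.C hsm i ≤ N (f i) := by
  obtain ⟨f, hf⟩ := c.finest (c.dec_of_submodule N h1 h2)
  exact ⟨f, fun i x hx => hf i hx⟩

include hsm in
/-- finitely generated modules have finitely many components -/
lemma finite_I [Module.Finite A M] : Finite c.I := by
  classical
  obtain ⟨s, hs⟩ := (Module.Finite.fg_top : (⊤ : Submodule A M).FG)
  have h1 : ∀ x : M, ∃ F : Finset c.I, x ∈ ⨆ i ∈ F, c.C hsm i := by
    intro x
    refine Submodule.exists_finset_of_mem_iSup (c.C hsm) ?_
    rw [c.C_sup hsm]; exact Submodule.mem_top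
  choose F hF using h1
  have h2 : (⊤ : Submodule A M) ≤ ⨆ i ∈ s.biUnion F, c.C hsm i := by
    rw [← hs, Submodule.span_le]
    intro x hx
    have h3 : (⨆ i ∈ F x, c.C hsm i) ≤ ⨆ i ∈ s.biUnion F, c.C hsm i := by
      refine iSup₂_le fun i hi => ?_
      exact le_iSup₂ (f := fun i (_ : i ∈ s.biUnion F) => c.C hsm i) i
        (Finset.mem_biUnion.2 ⟨x, hx, hi⟩)
    exact h3 (hF x)
  refine Set.finite_univ_iff.1 ((s.biUnion F).finite_toSet.subset fun i _ => ?_)
  by_contra hi
  apply c.C_ne_bot hsm i
  rw [eq_bot_iff]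
  intro x hx
  rw [Submodule.mem_bot]
  have key : ∀ y, y ∈ (⨆ j : {j // j ∈ s.biUnion F}, c.C hsm j) → c.b x y = 0 := by
    intro y hy
    induction hy using Submodule.iSup_induction' with
    | mem j y hy =>
      refine c.C_orth hsm ?_ hx hy
      rintro rfl
      exact hi j.2
    | zero => exact map_zero _
    | add y z _ _ hy hz => rw [map_add, hy, hz, add_zero]
  refine c.eq_zero_of_self (key x ?_)
  rw [iSup_subtype]
  exact h2 Submodule.mem_top

end Core

end Pool.Agent.TH254.DK
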