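import Mathlib

/-!
Biadditive forms with a positivity condition: indecomposable vectors, their classes and the
finest orthogonal decomposition.
-/

set_option autoImplicit false

namespace Pool.Agent.TH254.DK

universe u v w

/-- a biadditive map `b` and an additive map `ψ` such that `ψ (b x x) > 0` for `x ≠ 0` -/
structure Core (M : Type v) (B : Type u) [AddCommGroup M] [AddCommGroup B] where
  b : M →+ M →+ B
  ψ : B →+ ℤ
  symm0 : ∀ x y, b x y = 0 → b y x = 0
  pos : ∀ x, x ≠ 0 → 0 < ψ (b x x)

variable {M : Type v} {B : Type u} [AddCommGroup M] [AddCommGroup B]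

/-- families of additive subgroups, pairwise orthogonal, which generate `M` -/
structure Core.Dec (c : Core M B) {J : Type w} (N : J → AddSubgroup M) : Prop where
  orth : ∀ i j, i ≠ j → ∀ x ∈ N i, ∀ y ∈ N j, c.b x y = 0
  sup : ∀ x, x ∈ ⨆ j, N j

namespace Core

variable (c : Core M B)

lemma symm_iff (x y : M) : c.b x y = 0 ↔ c.b y x = 0 := ⟨c.symm0 x y, c.symm0 y x⟩

/-- the norm -/
def nrm (x : M) : ℤ := c.ψ (c.b x x)

lemma nrm_zero : c.nrm 0 = 0 := by simp [nrm]

lemma nrm_nonneg (x : M) : 0 ≤ c.nrm x := by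
  by_cases h : x = 0
  · subst h; rw [c.nrm_zero]
  · exact (c.pos x h).le

lemma eq_zero_of_self {x : M} (h : c.b x x = 0) : x = 0 := by
  by_contra hx
  have := c.pos x hx
  rw [h, map_zero] at this
  exact lt_irrefl _ this

lemma nrm_add {x y : M} (h : c.b x y = 0) : c.nrm (x + y) = c.nrm x + c.nrm y := by
  unfold nrm
  rw [map_add c.b, AddMonoidHom.add_apply, map_add (c.b x), map_add (c.b y), h, c.symm0 x y h,
    add_zero, zero_add, map_add]

/-- indecomposable vectors -/
def Ind (x : M) : Prop := ∀ u v, x = u + v → c.b u v = 0 → u = 0 ∨ v = 0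

/-- the nonzero indecomposable vectors -/
def V : Set M := {x | x ≠ 0 ∧ c.Ind x}

/-- the nonzero indecomposable vectors generate -/
lemma mem_closure_V (x : M) : x ∈ AddSubgroup.closure c.V := by
  have key : ∀ (n : ℕ) (x : M), (c.nrm x).toNat = n → x ∈ AddSubgroup.closure c.V := by
    intro n
    induction n using Nat.strong_induction_on with
    | _ n ih =>
      intro x hx
      by_cases h0 : x = 0
      · rw [h0]; exact AddSubgroup.zero_mem _
      by_cases hI : c.Ind x
      · exact AddSubgroup.subset_closure ⟨h0, hI⟩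
      · unfold Ind at hI
        push Not at hI
        obtain ⟨u, v, huv, hb, hu, hv⟩ := hI
        have h1 := c.nrm_add hb
        have h2 : 0 < c.nrm u := c.pos u hu
        have h3 : 0 < c.nrm v := c.pos v hv
        rw [← huv] at h1
        rw [huv]
        refine AddSubgroup.add_mem _ (ih (c.nrm u).toNat (by omega) u rfl)
          (ih (c.nrm v).toNat (by omega) v rfl)
  exact key _ x rfl

section Families

variable {J : Type w} {N : J → AddSubgroup M}

lemma Dec.orth_sup {c : Core M B} (h : c.Dec N) (j : J) {x y : M} (hx : x ∈ N j)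
    (hy : y ∈ ⨆ k : {k // k ≠ j}, N k) : c.b x y = 0 := by
  induction hy using AddSubgroup.iSup_induction' with
  | hp k y hy => exact h.orth j k (Ne.symm k.2) x hx y hy
  | h1 => exact map_zero _
  | hadd y z _ _ hy hz => rw [map_add, hy, hz, add_zero]

lemma Dec.split {c : Core M B} (h : c.Dec N) (j : J) (x : M) :
    ∃ u ∈ N j, ∃ v ∈ ⨆ k : {k // k ≠ j}, N k, x = u + v := by
  have h1 : (⨆ k, N k) ≤ N j ⊔ ⨆ k : {k // k ≠ j}, N k := by
    refine iSup_le fun k => ?_
    by_cases hk : k = j
    · rw [hk]; exact le_sup_left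
    · exact (le_iSup (fun k : {k // k ≠ j} => N k) ⟨k, hk⟩).trans le_sup_right
  obtain ⟨u, hu, v, hv, huv⟩ := AddSubgroup.mem_sup.1 (h1 (h.sup x))
  exact ⟨u, hu, v, hv, huv.symm⟩

/-- a vector which is orthogonal to all members of a decomposition is zero -/
lemma Dec.eq_zero {c : Core M B} (h : c.Dec N) {x : M} (hx : ∀ j, ∀ y ∈ N j, c.b x y = 0) :
    x = 0 := by
  have key : ∀ y, y ∈ ⨆ j, N j → c.b x y = 0 := by
    intro y hy
    induction hy using AddSubgroup.iSup_induction' with
    | hp k y hy => exact hx k y hy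
    | h1 => exact map_zero _
    | hadd y z _ _ hy hz => rw [map_add, hy, hz, add_zero]
  exact c.eq_zero_of_self (key x (h.sup x))

/-- an indecomposable vector lies in one of the members -/
lemma Dec.exists_mem {c : Core M B} (h : c.Dec N) {x : M} (hx : x ∈ c.V) : ∃ j, x ∈ N j := by
  by_contra hcon
  push Not at hcon
  refine hx.1 (h.eq_zero ?_)
  intro j y hy
  obtain ⟨u, hu, v, hv, huv⟩ := h.split j x
  have h1 : c.b u v = 0 := h.orth_sup j hu hv
  rcases hx.2 u v huv h1 with h2 | h2
  · rw [huv, h2, zero_add]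
    exact c.symm0 _ _ (h.orth_sup j hy hv)
  · exfalso
    apply hcon j
    rw [huv, h2, add_zero]
    exact hu

lemma Dec.unique {c : Core M B} (h : c.Dec N) {x : M} (hx : x ≠ 0) {i j : J} (hi : x ∈ N i)
    (hj : x ∈ N j) : i = j := by
  by_contra hij
  exact hx (c.eq_zero_of_self (h.orth i j hij x hi x hj))

/-- additive maps which preserve orthogonality on the left preserve the members -/
lemma Dec.map_mem {c : Core M B} (h : c.Dec N) (T : M → M)
    (hT : ∀ x y, c.b x y = 0 → c.b (T x) y = 0) {j : J} {x : M} (hx : x ∈ N j) : T x ∈ N j := by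
  obtain ⟨u, hu, v, hv, huv⟩ := h.split j (T x)
  have h1 : c.b (T x) v = 0 := hT _ _ (h.orth_sup j hx hv)
  rw [huv, map_add, AddMonoidHom.add_apply, h.orth_sup j hu hv, zero_add] at h1
  rw [huv, c.eq_zero_of_self h1, add_zero]
  exact hu

end Families

/-- non-orthogonality -/
def adj (x y : c.V) : Prop := c.b (x : M) (y : M) ≠ 0

/-- the classes of indecomposable vectors -/
def I : Type v := Quotient (Relation.EqvGen.setoid c.adj)

/-- the class of an indecomposable vector -/
def cls (x : c.V) : c.I := Quotient.mk (Relation.EqvGen.setoid c.adj) x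

lemma cls_eq_of_adj {x y : c.V} (h : c.adj x y) : c.cls x = c.cls y :=
  Quotient.sound (s := Relation.EqvGen.setoid c.adj) (Relation.EqvGen.rel _ _ h)

/-- the subgroup generated by a class -/
def P (i : c.I) : AddSubgroup M := AddSubgroup.closure {x | ∃ h : x ∈ c.V, c.cls ⟨x, h⟩ = i}

lemma mem_P (x : c.V) : (x : M) ∈ c.P (c.cls x) := AddSubgroup.subset_closure ⟨x.2, rfl⟩

lemma P_ne_bot (i : c.I) : c.P i ≠ ⊥ := by
  obtain ⟨x, rfl⟩ := Quotient.exists_rep i
  intro h
  have h1 := c.mem_P x
  change (x : M) ∈ c.P ⟦x⟧ at h1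
  rw [h] at h1
  exact x.2.1 (by simpa using h1)

lemma P_orth {i j : c.I} (hij : i ≠ j) {x y : M} (hx : x ∈ c.P i) (hy : y ∈ c.P j) :
    c.b x y = 0 := by
  unfold P at hx hy
  induction hx using AddSubgroup.closure_induction with
  | zero => rw [map_zero, AddMonoidHom.zero_apply]
  | add u v _ _ hu hv => rw [map_add, AddMonoidHom.add_apply, hu, hv, add_zero]
  | neg u _ hu => rw [map_neg, AddMonoidHom.neg_apply, hu, neg_zero]
  | mem u hu =>
    induction hy using AddSubgroup.closure_induction with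
    | zero => exact map_zero _
    | add s t _ _ hs ht => rw [map_add, hs, ht, add_zero]
    | neg s _ hs => rw [map_neg, hs, neg_zero]
    | mem s hs =>
      obtain ⟨hu1, hu2⟩ := hu
      obtain ⟨hs1, hs2⟩ := hs
      by_contra hne
      apply hij
      rw [← hu2, ← hs2]
      exact c.cls_eq_of_adj hne

lemma P_sup (x : M) : x ∈ ⨆ i, c.P i := by
  have h : AddSubgroup.closure c.V ≤ ⨆ i, c.P i := by
    rw [AddSubgroup.closure_le]
    intro y hy
    exact (le_iSup c.P (c.cls ⟨y, hy⟩)) (c.mem_P ⟨y, hy⟩)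
  exact h (c.mem_closure_V x)

lemma dec_P : c.Dec c.P := ⟨fun _ _ hij _ hx _ hy => c.P_orth hij hx hy, c.P_sup⟩

/-- **the finest decomposition** -/
lemma finest {J : Type w} {N : J → AddSubgroup M} (h : c.Dec N) :
    ∃ f : c.I → J, ∀ i, c.P i ≤ N (f i) := by
  classical
  have h1 : ∀ x : c.V, ∃ j, (x : M) ∈ N j := fun x => h.exists_mem x.2
  choose f hf using h1
  have h2 : ∀ x y : c.V, c.adj x y → f x = f y := by
    intro x y hxy
    by_contra hne
    exact hxy (h.orth _ _ hne _ (hf x) _ (hf y))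
  have h3 : ∀ x y : c.V, Relation.EqvGen c.adj x y → f x = f y := by
    intro x y hxy
    induction hxy with
    | rel _ _ h => exact h2 _ _ h
    | refl _ => rfl
    | symm _ _ _ ih => exact ih.symm
    | trans _ _ _ _ _ ih1 ih2 => exact ih1.trans ih2
  refine ⟨Quotient.lift f h3, ?_⟩
  intro i
  unfold P
  rw [AddSubgroup.closure_le]
  rintro x ⟨hx, rfl⟩
  exact hf ⟨x, hx⟩

end Core

end Pool.Agent.TH254.DK
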