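import Pool.Agent.TH254.DF.Defs

/-!
Hermitian forms on modules over a group ring `R[G]`, where `R` is a ring with involution, and
orthogonal decompositions which are permuted by `G`.
-/

set_option autoImplicit false

namespace Pool.Agent.TH254.DK

open Pool.Agent.TH254.DF

universe u v w x

variable {R : Type u} [Ring R] [StarRing R] {G : Type w} [Group G]
variable {M : Type v} [AddCommGroup M] [Module (MonoidAlgebra R G) M]

/-- `lam` is a hermitian form with values in `R[G]`; `adj` is the involution
`∑ r_g g ↦ ∑ r_g^* g⁻¹`. It may be singular. -/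
structure IsHermitian (lam : M → M → MonoidAlgebra R G) : Prop where
  add_left : ∀ x y z, lam (x + y) z = lam x z + lam y z
  smul_left : ∀ (a : MonoidAlgebra R G) (x y : M), lam (a • x) y = a * lam x y
  herm : ∀ x y, lam y x = adj (lam x y)

/-- `lam` is positive with respect to the additive map `φ : R → ℤ`: the integer `φ (r)`, where
`r` is the coefficient of `lam x x` at the unit element of `G`, is positive for `x ≠ 0` -/
def PositiveFor (φ : R →+ ℤ) (lam : M → M → MonoidAlgebra R G) : Prop :=
  ∀ x, x ≠ 0 → 0 < φ ((lam x x).coeff 1)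

/-- The submodules `P` and `Q` are orthogonal to each other and generate `M`. -/
structure Splits (lam : M → M → MonoidAlgebra R G) (P Q : Submodule (MonoidAlgebra R G) M) :
    Prop where
  orth : ∀ x ∈ P, ∀ y ∈ Q, lam x y = 0
  sup : P ⊔ Q = ⊤

/-- A frame of the submodule `P`: a family of additive subgroups `N i` of `P`, indexed by a
`G`-set, with `g N i = N (g i)`, which generate the group `P` and are orthogonal to each other
for the form `(x, y) ↦ (lam x y).coeff 1`. (For positive `lam` the group `P` is the direct sum of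
the `N i`, so the part of `P` over an orbit `G i` is `R[G] ⊗ N i` over `R[G_i]`, `G_i` the
stabiliser of `i`; see also `frame_values` in the results file.) -/
structure IsFrame (lam : M → M → MonoidAlgebra R G) (P : Submodule (MonoidAlgebra R G) M)
    {I : Type*} [MulAction G I] (N : I → AddSubgroup M) : Prop where
  orth : ∀ i j, i ≠ j → ∀ x ∈ N i, ∀ y ∈ N j, (lam x y).coeff 1 = 0
  smul : ∀ (g : G) (i : I) (x : M), x ∈ N i → MonoidAlgebra.single g (1 : R) • x ∈ N (g • i)
  sup : ⨆ i, N i = P.toAddSubgroup

/-- the members `N i` are nonzero and are not the sum of two nonzero subgroups which are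
orthogonal for the form `(x, y) ↦ (lam x y).coeff 1` -/
def Indecomposable (lam : M → M → MonoidAlgebra R G) {I : Type*} (N : I → AddSubgroup M) : Prop :=
  ∀ i, N i ≠ ⊥ ∧ ∀ U V : AddSubgroup M, (∀ x ∈ U, ∀ y ∈ V, (lam x y).coeff 1 = 0) →
    U ⊔ V = N i → U = ⊥ ∨ V = ⊥

/-- `P` has a frame all of whose stabilisers are contained in members of the family `F` -/
def InducedOver (F : Set (Subgroup G)) (lam : M → M → MonoidAlgebra R G)
    (P : Submodule (MonoidAlgebra R G) M) : Prop :=
  ∃ (I : Type v) (_ : MulAction G I) (N : I → AddSubgroup M), IsFrame lam P N ∧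
    ∀ i : I, ∃ H ∈ F, MulAction.stabilizer G i ≤ H

/-- `β` preserves the forms -/
def Preserves {M' : Type*} (lam : M → M → MonoidAlgebra R G)
    (lam' : M' → M' → MonoidAlgebra R G) (β : M → M') : Prop :=
  ∀ a b, lam' (β a) (β b) = lam a b

/-- the family `N` of subgroups refines the family `N'` by an equivariant map of the indices -/
def Refines (G : Type w) [Group G] {I J : Type*} [MulAction G I] [MulAction G J]
    (N : I → AddSubgroup M) (N' : J → AddSubgroup M) : Prop :=
  ∃ f : I → J, (∀ (g : G) (i : I), f (g • i) = g • f i) ∧ ∀ i, N i ≤ N' (f i)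

/-- the `G`-set `I` has finitely many orbits -/
def FiniteOrbits (G : Type w) [Group G] (I : Type*) [MulAction G I] : Prop :=
  ∃ T : Finset I, ∀ i : I, ∃ t ∈ T, ∃ g : G, i = g • t

/-- there is a frame with indecomposable members which refines all frames (with index sets in a
given universe); it has finitely many orbits if `M` is finitely generated -/
def HasFinestFrame (lam : M → M → MonoidAlgebra R G) : Prop :=
  ∃ (I : Type v) (_ : MulAction G I) (N : I → AddSubgroup M),
    IsFrame lam ⊤ N ∧ Indecomposable lam N ∧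
    (∀ (J : Type x) [MulAction G J] (N' : J → AddSubgroup M), IsFrame lam ⊤ N' →
      Refines G N N') ∧
    (Module.Finite (MonoidAlgebra R G) M → FiniteOrbits G I)

/-- the members of the frames of `M` are stable under `R`, and for `a ∈ N i` and `b ∈ N j` the
values `lam a b` are supported on the elements `g` with `g j = i` -/
def FrameValues (lam : M → M → MonoidAlgebra R G) : Prop :=
  ∀ (I : Type x) [MulAction G I] (N : I → AddSubgroup M), IsFrame lam ⊤ N →
    (∀ (r : R) (i : I), ∀ a ∈ N i, MonoidAlgebra.single (1 : G) r • a ∈ N i) ∧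
    ∀ (i j : I) (g : G), g • j ≠ i → ∀ a ∈ N i, ∀ b ∈ N j, (lam a b).coeff g = 0

/-- isometries from `M` to other forms match the frames with indecomposable members -/
def FramesInvariant (lam : M → M → MonoidAlgebra R G) : Prop :=
  ∀ (M' : Type v) [AddCommGroup M'] [Module (MonoidAlgebra R G) M']
    (lam' : M' → M' → MonoidAlgebra R G) (β : M ≃ₗ[MonoidAlgebra R G] M'),
    Preserves lam lam' β →
    ∀ (I J : Type x) [MulAction G I] [MulAction G J] (N : I → AddSubgroup M)
      (N' : J → AddSubgroup M'), IsFrame lam ⊤ N → Indecomposable lam N →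
      IsFrame lam' ⊤ N' → Indecomposable lam' N' →
      ∃ f : I ≃ J, (∀ (g : G) (i : I), f (g • i) = g • f i) ∧
        ∀ i a, a ∈ N i ↔ β a ∈ N' (f i)

/-- the submodules `D j` are pairwise orthogonal and generate `M` -/
def OrthogonalSum (lam : M → M → MonoidAlgebra R G) {J : Type*}
    (D : J → Submodule (MonoidAlgebra R G) M) : Prop :=
  (∀ i j, i ≠ j → ∀ a ∈ D i, ∀ b ∈ D j, lam a b = 0) ∧ ⨆ j, D j = ⊤

/-- `M` is the orthogonal sum of nonzero submodules, finitely many if `M` is finitely generated,
which refine all orthogonal decompositions into submodules -/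
def KrullSchmidt (lam : M → M → MonoidAlgebra R G) : Prop :=
  ∃ (O : Type v) (C : O → Submodule (MonoidAlgebra R G) M),
    OrthogonalSum lam C ∧ (∀ o, C o ≠ ⊥) ∧
    (∀ (J : Type x) (D : J → Submodule (MonoidAlgebra R G) M), OrthogonalSum lam D →
      ∃ f : O → J, ∀ o, C o ≤ D (f o)) ∧
    (Module.Finite (MonoidAlgebra R G) M → Finite O)

/-- isometries between orthogonal summands of `M` extend to `M` -/
def WittExtension (lam : M → M → MonoidAlgebra R G) : Prop :=
  ∀ P Q P' Q' : Submodule (MonoidAlgebra R G) M, Splits lam P Q → Splits lam P' Q' →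
    ∀ α : Q ≃ₗ[MonoidAlgebra R G] Q',
    (∀ a b : Q, lam (α a : M) (α b : M) = lam (a : M) b) →
    ∃ β : M ≃ₗ[MonoidAlgebra R G] M, Preserves lam lam β ∧ ∀ a : Q, β a = α a

/-- if `(M, lam) ⊥ (Q, κ)` and `(M', lam') ⊥ (Q, κ)` are isometric, where `(Q, κ)` is finitely
generated and positive for `φ`, then `(M, lam)` and `(M', lam')` are isometric -/
def Cancellation (φ : R →+ ℤ) (lam : M → M → MonoidAlgebra R G) : Prop :=
  ∀ (M' Q : Type v) [AddCommGroup M'] [AddCommGroup Q]
    [Module (MonoidAlgebra R G) M'] [Module (MonoidAlgebra R G) Q]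
    (lam' : M' → M' → MonoidAlgebra R G) (κ : Q → Q → MonoidAlgebra R G),
    Module.Finite (MonoidAlgebra R G) Q → IsHermitian lam' → IsHermitian κ → PositiveFor φ κ →
    (∃ E : (M × Q) ≃ₗ[MonoidAlgebra R G] (M' × Q), ∀ a b,
      lam' (E a).1 (E b).1 + κ (E a).2 (E b).2 = lam a.1 b.1 + κ a.2 b.2) →
    ∃ E : M ≃ₗ[MonoidAlgebra R G] M', Preserves lam lam' E

end Pool.Agent.TH254.DK
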