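import Pool.Agent.TH254.DK.Group

/-!
Consequences: families of subgroups, orthogonal summands, indecomposability and finiteness.
-/

set_option autoImplicit false

namespace Pool.Agent.TH254.DK

open Pool.Agent.TH254.DF
open MonoidAlgebra (single)

universe u v w x

section Abstract

variable {M : Type v} {B : Type u} [AddCommGroup M] [AddCommGroup B] (c : Core M B)

/-- orthogonal splittings of the group -/
lemma Core.P_le_or_le {U V : AddSubgroup M} (ho : ∀ x ∈ U, ∀ y ∈ V, c.b x y = 0)
    (hs : U ⊔ V = ⊤) (i : c.I) : c.P i ≤ U ∨ c.P i ≤ V := by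
  obtain ⟨f, hf⟩ := c.finest (N := fun t : Bool => if t then U else V) (by
    refine ⟨?_, fun x => ?_⟩
    · intro a b hab x hx y hy
      cases a <;> cases b
      · exact absurd rfl hab
      · exact c.symm0 _ _ (ho y hy x hx)
      · exact ho x hx y hy
      · exact absurd rfl hab
    · rw [iSup_bool_eq]
      simp only [if_true, Bool.false_eq_true, if_false]
      rw [hs]
      exact AddSubgroup.mem_top x)
  have := hf i
  cases hfi : f i with
  | false => rw [hfi] at this; right; exact this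
  | true => rw [hfi] at this; left; exact this

lemma Core.P_sup_of_split {U V : AddSubgroup M} (ho : ∀ x ∈ U, ∀ y ∈ V, c.b x y = 0)
    (hs : U ⊔ V = ⊤) : (⨆ i : {i // c.P i ≤ V}, c.P (i : c.I)) = V := by
  refine le_antisymm (iSup_le fun i => i.2) ?_
  intro y hy
  have h1 : (⨆ i, c.P i) ≤ (⨆ i : {i // c.P i ≤ U}, c.P (i : c.I)) ⊔
      (⨆ i : {i // c.P i ≤ V}, c.P (i : c.I)) := by
    refine iSup_le fun i => ?_
    rcases c.P_le_or_le ho hs i with hi | hi
    · exact (le_iSup (fun i : {i // c.P i ≤ U} => c.P (i : c.I)) ⟨i, hi⟩).trans le_sup_left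
    · exact (le_iSup (fun i : {i // c.P i ≤ V} => c.P (i : c.I)) ⟨i, hi⟩).trans le_sup_right
  obtain ⟨u, hu, v, hv, huv⟩ := AddSubgroup.mem_sup.1 (h1 (c.P_sup y))
  have hu' : u ∈ U := (iSup_le fun i : {i // c.P i ≤ U} => i.2) hu
  have hv' : v ∈ V := (iSup_le fun i : {i // c.P i ≤ V} => i.2) hv
  have hu0 : u = 0 := by
    have h2 : u ∈ V := by
      have : u = y - v := by rw [← huv]; abel
      rw [this]
      exact AddSubgroup.sub_mem _ hy hv'
    exact c.eq_zero_of_self (ho u hu' u h2)
  rw [← huv, hu0, zero_add]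
  exact hv

/-- the components are indecomposable -/
lemma Core.P_indec (i : c.I) (U V : AddSubgroup M) (ho : ∀ x ∈ U, ∀ y ∈ V, c.b x y = 0)
    (hs : U ⊔ V = c.P i) : U = ⊥ ∨ V = ⊥ := by
  have hU : U ≤ c.P i := by rw [← hs]; exact le_sup_left
  have hV : V ≤ c.P i := by rw [← hs]; exact le_sup_right
  have ho' : ∀ x ∈ U, ∀ y ∈ V ⊔ (⨆ k : {k // k ≠ i}, c.P k), c.b x y = 0 := by
    intro x hx y hy
    obtain ⟨v, hv, w, hw, rfl⟩ := AddSubgroup.mem_sup.1 hy
    rw [map_add, ho x hx v hv, c.dec_P.orth_sup i (hU hx) hw, add_zero]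
  have hs' : U ⊔ (V ⊔ (⨆ k : {k // k ≠ i}, c.P k)) = ⊤ := by
    rw [eq_top_iff]
    intro x _
    obtain ⟨u, hu, v, hv, huv⟩ := c.dec_P.split i x
    rw [← sup_assoc, hs]
    exact AddSubgroup.mem_sup.2 ⟨u, hu, v, hv, huv.symm⟩
  rcases c.P_le_or_le ho' hs' i with h1 | h1
  · right
    rw [eq_bot_iff]
    intro y hy
    rw [AddSubgroup.mem_bot]
    exact c.eq_zero_of_self (ho y (h1 (hV hy)) y hy)
  · left
    rw [eq_bot_iff]
    intro y hy
    rw [AddSubgroup.mem_bot]
    exact c.eq_zero_of_self (ho' y hy y (h1 (hU hy)))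

end Abstract

variable {R : Type u} [Ring R] [StarRing R] {G : Type w} [Group G]
variable {M : Type v} [AddCommGroup M] [Module (MonoidAlgebra R G) M]
variable {lam : M → M → MonoidAlgebra R G}
variable (φ : R →+ ℤ) (h : IsHermitian lam) (hpos : PositiveFor φ lam)

lemma stabilizer_le_of_map {I J : Type*} [MulAction G I] [MulAction G J] (f : I → J)
    (hf : ∀ (g : G) i, f (g • i) = g • f i) (i : I) :
    MulAction.stabilizer G i ≤ MulAction.stabilizer G (f i) := by
  intro g hg
  rw [MulAction.mem_stabilizer_iff] at hg ⊢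
  rw [← hf, hg]

include φ h hpos in
/-- **families of subgroups** -/
theorem induced_inter (F F' : Set (Subgroup G)) (h1 : InducedOver F lam ⊤)
    (h2 : InducedOver F' lam ⊤) :
    InducedOver {H | (∃ K ∈ F, H ≤ K) ∧ ∃ K ∈ F', H ≤ K} lam ⊤ := by
  obtain ⟨J1, a1, N1, hN1, hs1⟩ := h1
  obtain ⟨J2, a2, N2, hN2, hs2⟩ := h2
  let _ := actI φ h hpos
  refine ⟨(core1 φ h hpos).I, actI φ h hpos, (core1 φ h hpos).P, isFrame_P φ h hpos, ?_⟩
  intro i
  obtain ⟨f1, hf1, _⟩ := finest_equivariant φ h hpos hN1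
  obtain ⟨f2, hf2, _⟩ := finest_equivariant φ h hpos hN2
  obtain ⟨K1, hK1, hi1⟩ := hs1 (f1 i)
  obtain ⟨K2, hK2, hi2⟩ := hs2 (f2 i)
  exact ⟨MulAction.stabilizer G i,
    ⟨⟨K1, hK1, (stabilizer_le_of_map f1 hf1 i).trans hi1⟩,
      ⟨K2, hK2, (stabilizer_le_of_map f2 hf2 i).trans hi2⟩⟩, le_rfl⟩

include φ h hpos in
/-- **orthogonal summands** -/
theorem induced_summand (F : Set (Subgroup G)) (h1 : InducedOver F lam ⊤)
    (P Q : Submodule (MonoidAlgebra R G) M) (hPQ : Splits lam P Q) : InducedOver F lam P := by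
  obtain ⟨J1, a1, N1, hN1, hs1⟩ := h1
  let _ := actI φ h hpos
  obtain ⟨f1, hf1, _⟩ := finest_equivariant φ h hpos hN1
  have hgi : ∀ (g : G) (i : (core1 φ h hpos).I), (core1 φ h hpos).P i ≤ P.toAddSubgroup →
      (core1 φ h hpos).P (g • i) ≤ P.toAddSubgroup := by
    intro g i hi x hx
    have h2 := P_smul φ h hpos g⁻¹ (g • i) hx
    have h3 : (actI φ h hpos).toSMul.smul g⁻¹ (g • i) = i := inv_smul_smul g i
    rw [h3] at h2
    have h4 : single g (1 : R) • single g⁻¹ (1 : R) • x ∈ P := P.smul_mem _ (hi h2)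
    rw [single_smul_smul, mul_inv_cancel, single_one_smul] at h4
    exact h4
  let act : MulAction G {i // (core1 φ h hpos).P i ≤ P.toAddSubgroup} :=
    { smul := fun g i => ⟨g • (i : (core1 φ h hpos).I), hgi g i i.2⟩
      one_smul := fun i => Subtype.ext (one_smul G (i : (core1 φ h hpos).I))
      mul_smul := fun g k i => Subtype.ext (mul_smul g k (i : (core1 φ h hpos).I)) }
  refine ⟨{i // (core1 φ h hpos).P i ≤ P.toAddSubgroup}, act,
    fun i => (core1 φ h hpos).P (i : (core1 φ h hpos).I), ⟨?_, ?_, ?_⟩, ?_⟩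
  · intro i j hij x hx y hy
    exact (core1 φ h hpos).P_orth (fun hh => hij (Subtype.ext hh)) hx hy
  · intro g i x hx
    exact P_smul φ h hpos g i hx
  · refine (core1 φ h hpos).P_sup_of_split (U := Q.toAddSubgroup) ?_ ?_
    · intro x hx y hy
      rw [core1_b, h.herm y x, hPQ.orth y hy x hx, adj_zero]
      rfl
    · rw [eq_top_iff]
      intro x _
      have h5 : x ∈ P ⊔ Q := by rw [hPQ.sup]; exact Submodule.mem_top
      obtain ⟨p, hp, q, hq, rfl⟩ := Submodule.mem_sup.1 h5
      rw [add_comm]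
      exact AddSubgroup.mem_sup.2 ⟨q, hq, p, hp, rfl⟩
  · intro i
    obtain ⟨K1, hK1, hi1⟩ := hs1 (f1 i)
    refine ⟨K1, hK1, le_trans ?_ hi1⟩
    refine le_trans ?_ (stabilizer_le_of_map f1 hf1 (i : (core1 φ h hpos).I))
    intro g hg
    rw [MulAction.mem_stabilizer_iff] at hg ⊢
    exact congrArg Subtype.val hg

/-- finitely generated modules: finitely many orbits -/
lemma finite_orbits [Module.Finite (MonoidAlgebra R G) M] :
    letI := actI φ h hpos
    ∃ T : Finset (core1 φ h hpos).I, ∀ i, ∃ t ∈ T, ∃ g : G, i = g • t := by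
  classical
  let _ := actI φ h hpos
  obtain ⟨s, hs⟩ := (Module.Finite.fg_top : (⊤ : Submodule (MonoidAlgebra R G) M).FG)
  have h1 : ∀ x : M, ∃ F : Finset (core1 φ h hpos).I,
      ∀ i, i ∉ F → ∀ y ∈ (core1 φ h hpos).P i, (lam y x).coeff 1 = 0 := by
    intro x
    have hx := (core1 φ h hpos).P_sup x
    induction hx using AddSubgroup.iSup_induction' with
    | hp j x hx =>
      refine ⟨{j}, fun i hi y hy => ?_⟩
      rw [Finset.mem_singleton] at hi
      exact (core1 φ h hpos).P_orth hi hy hx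
    | h1 =>
      refine ⟨∅, fun i _ y _ => ?_⟩
      exact map_zero ((core1 φ h hpos).b y)
    | hadd u v _ _ hu hv =>
      obtain ⟨F1, hF1⟩ := hu
      obtain ⟨F2, hF2⟩ := hv
      refine ⟨F1 ∪ F2, fun i hi y hy => ?_⟩
      rw [Finset.mem_union, not_or] at hi
      have : (core1 φ h hpos).b y (u + v) = 0 := by
        rw [map_add, core1_b, core1_b, hF1 i hi.1 y hy, hF2 i hi.2 y hy, add_zero]
      exact this
  choose F hF using h1
  refine ⟨s.biUnion F, ?_⟩
  intro i
  by_contra hcon
  push Not at hcon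
  apply (core1 φ h hpos).P_ne_bot i
  rw [eq_bot_iff]
  intro x hx
  rw [AddSubgroup.mem_bot]
  have key : ∀ z : M, z ∈ Submodule.span (MonoidAlgebra R G) (s : Set M) → ∀ (k : G) (y : M),
      y ∈ (core1 φ h hpos).P (k • i) → (lam y z).coeff 1 = 0 := by
    intro z hz
    induction hz using Submodule.span_induction with
    | mem z hz =>
      intro k y hy
      refine hF z (k • i) ?_ y hy
      intro hmem
      refine hcon (k • i) (Finset.mem_biUnion.2 ⟨z, hz, hmem⟩) k⁻¹ ?_
      rw [inv_smul_smul]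
    | zero =>
      intro k y _
      exact map_zero ((core1 φ h hpos).b y)
    | add u v _ _ hu hv =>
      intro k y hy
      have : (core1 φ h hpos).b y (u + v) = 0 := by
        rw [map_add, core1_b, core1_b, hu k y hy, hv k y hy, add_zero]
      exact this
    | smul a z _ hz =>
      induction a using MonoidAlgebra.induction_linear with
      | zero =>
        intro k y _
        rw [zero_smul]
        exact map_zero ((core1 φ h hpos).b y)
      | add a b ha hb =>
        intro k y hy
        rw [add_smul]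
        have : (core1 φ h hpos).b y (a • z + b • z) = 0 := by
          rw [map_add, core1_b, core1_b, ha k y hy, hb k y hy, add_zero]
        exact this
      | single g r =>
        intro k y hy
        rw [coeff_smul_right h]
        have h2 := P_smul φ h hpos g⁻¹ (k • i) hy
        have h3 : (actI φ h hpos).toSMul.smul g⁻¹ (k • i) = (g⁻¹ * k) • i := (mul_smul _ _ _).symm
        rw [h3] at h2
        have h4 := hz (g⁻¹ * k) _ h2
        rw [h.smul_left, MonoidAlgebra.coeff_single_mul_apply, one_mul, inv_inv, mul_one] at h4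
        rw [h4, zero_mul]
  refine (core1 φ h hpos).eq_zero_of_self ?_
  refine key x (by rw [hs]; exact Submodule.mem_top) 1 x ?_
  rw [one_smul]
  exact hx

end Pool.Agent.TH254.DK
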