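import Pool.Agent.TH254.DK.Witt
import Pool.Agent.TH254.DK.Defs
import Pool.Agent.TH254.DF.Form

/-!
The finest decomposition of a positive hermitian form over a group ring, with the action of `G`.
-/

set_option autoImplicit false

namespace Pool.Agent.TH254.DK

open Pool.Agent.TH254.DF
open MonoidAlgebra (single)

universe u v w x

variable {R : Type u} [Ring R] [StarRing R] {G : Type w} [Group G]
variable {M : Type v} [AddCommGroup M] [Module (MonoidAlgebra R G) M]
variable {lam : M → M → MonoidAlgebra R G}

lemma IsHermitian.add_right (h : IsHermitian lam) (x y z : M) :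
    lam x (y + z) = lam x y + lam x z := by
  rw [h.herm (y + z) x, h.add_left, adj_add, ← h.herm, ← h.herm]

lemma IsHermitian.smul_right (h : IsHermitian lam) (a : MonoidAlgebra R G) (x y : M) :
    lam x (a • y) = lam x y * adj a := by
  rw [h.herm (a • y) x, h.smul_left, adj_mul, ← h.herm]

lemma IsHermitian.zero_of_zero (h : IsHermitian lam) {x y : M} (h0 : lam x y = 0) :
    lam y x = 0 := by
  rw [h.herm x y, h0, adj_zero]

/-- the form with values in `R[G]` -/
noncomputable def formG (h : IsHermitian lam) : M →+ M →+ MonoidAlgebra R G :=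
  AddMonoidHom.mk' (fun x => AddMonoidHom.mk' (fun y => lam x y) (h.add_right x))
    (fun x y => by ext z : 1; exact h.add_left x y z)

/-- the coefficient at `1` -/
noncomputable def coeffOne : MonoidAlgebra R G →+ R :=
  AddMonoidHom.mk' (fun a => a.coeff 1) (fun _ _ => rfl)

/-- the form with values in `R` -/
noncomputable def form1 (h : IsHermitian lam) : M →+ M →+ R :=
  AddMonoidHom.mk' (fun x => AddMonoidHom.mk' (fun y => (lam x y).coeff 1)
    (fun y z => by rw [h.add_right]; rfl))
    (fun x y => by ext z : 1; change (lam (x + y) z).coeff 1 = _; rw [h.add_left]; rfl)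

/-- the core for submodules -/
noncomputable def coreG (φ : R →+ ℤ) (h : IsHermitian lam) (hpos : PositiveFor φ lam) :
    Core M (MonoidAlgebra R G) where
  b := formG h
  ψ := φ.comp coeffOne
  symm0 := fun _ _ h0 => h.zero_of_zero h0
  pos := hpos

/-- the core for subgroups -/
noncomputable def core1 (φ : R →+ ℤ) (h : IsHermitian lam) (hpos : PositiveFor φ lam) :
    Core M R where
  b := form1 h
  ψ := φ
  symm0 := fun x y h0 => by
    change (lam y x).coeff 1 = 0
    change (lam x y).coeff 1 = 0 at h0
    rw [h.herm x y, adj_coeff, inv_one, h0, star_zero]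
  pos := hpos

variable (φ : R →+ ℤ) (h : IsHermitian lam) (hpos : PositiveFor φ lam)

lemma coreG_smul (a : MonoidAlgebra R G) (x y : M) (h0 : (coreG φ h hpos).b x y = 0) :
    (coreG φ h hpos).b (a • x) y = 0 := by
  change lam (a • x) y = 0
  change lam x y = 0 at h0
  rw [h.smul_left, h0, mul_zero]

lemma core1_b (x y : M) : (core1 φ h hpos).b x y = (lam x y).coeff 1 := rfl

include h in
lemma coeff_smul_right (g : G) (r : R) (x y : M) :
    (lam x (single g r • y)).coeff 1 = (lam x y).coeff g * star r := by
  rw [h.smul_right, adj_single, MonoidAlgebra.coeff_mul_single_apply, inv_inv, one_mul]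

include h in
lemma coeff_smul_left_one (r : R) (x y : M) :
    (lam (single (1 : G) r • x) y).coeff 1 = r * (lam x y).coeff 1 := by
  rw [h.smul_left, MonoidAlgebra.coeff_single_mul_apply, inv_one, one_mul]

include h in
lemma coeff_smul_smul (g : G) (x y : M) :
    (lam (single g (1 : R) • x) (single g (1 : R) • y)).coeff 1 = (lam x y).coeff 1 := by
  rw [coeff_smul_right h, h.smul_left, MonoidAlgebra.coeff_single_mul_apply, inv_mul_cancel,
    star_one, one_mul, mul_one]

omit [StarRing R] in
lemma single_smul_smul (g k : G) (x : M) :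
    single g (1 : R) • single k (1 : R) • x = single (g * k) (1 : R) • x := by
  rw [smul_smul, MonoidAlgebra.single_mul_single, one_mul]

omit [StarRing R] in
lemma single_one_smul (x : M) : single (1 : G) (1 : R) • x = x := by
  change (1 : MonoidAlgebra R G) • x = x
  rw [one_smul]

omit [StarRing R] in
lemma single_inv_smul (g : G) (x : M) :
    single g⁻¹ (1 : R) • single g (1 : R) • x = x := by
  rw [single_smul_smul, inv_mul_cancel, single_one_smul]

omit [StarRing R] in
lemma single_smul_ne (g : G) {x : M} (hx : x ≠ 0) : single g (1 : R) • x ≠ 0 := by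
  intro h0
  apply hx
  rw [← single_inv_smul (R := R) g x, h0, smul_zero]

/-- translates of indecomposable vectors are indecomposable -/
lemma V_smul (g : G) {x : M} (hx : x ∈ (core1 φ h hpos).V) :
    single g (1 : R) • x ∈ (core1 φ h hpos).V := by
  refine ⟨single_smul_ne g hx.1, ?_⟩
  intro u v huv hb
  have h1 : x = single g⁻¹ (1 : R) • u + single g⁻¹ (1 : R) • v := by
    rw [← smul_add, ← huv, single_inv_smul]
  have h2 : (core1 φ h hpos).b (single g⁻¹ (1 : R) • u) (single g⁻¹ (1 : R) • v) = 0 := by
    rw [core1_b, coeff_smul_smul h]; exact hb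
  rcases hx.2 _ _ h1 h2 with h3 | h3
  · left
    by_contra hu
    exact single_smul_ne g⁻¹ hu h3
  · right
    by_contra hu
    exact single_smul_ne g⁻¹ hu h3

/-- the action of `g` on the indecomposable vectors -/
noncomputable def smulV (g : G) (x : (core1 φ h hpos).V) : (core1 φ h hpos).V :=
  ⟨single g (1 : R) • (x : M), V_smul φ h hpos g x.2⟩

lemma adj_smulV (g : G) {x y : (core1 φ h hpos).V}
    (hxy : Relation.EqvGen (core1 φ h hpos).adj x y) :
    Relation.EqvGen (core1 φ h hpos).adj (smulV φ h hpos g x) (smulV φ h hpos g y) := by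
  induction hxy with
  | rel a b hab =>
    apply Relation.EqvGen.rel
    intro h0
    apply hab
    change (lam (single g (1 : R) • (a : M)) (single g (1 : R) • (b : M))).coeff 1 = 0 at h0
    rw [coeff_smul_smul h] at h0
    exact h0
  | refl a => exact Relation.EqvGen.refl _
  | symm a b _ ih => exact ih.symm _ _
  | trans a b c _ _ ih1 ih2 => exact ih1.trans _ _ _ ih2

/-- `G` acts on the set of components -/
@[instance_reducible] noncomputable def actI : MulAction G (core1 φ h hpos).I where
  smul g i := Quotient.map (sa := Relation.EqvGen.setoid (core1 φ h hpos).adj)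
    (sb := Relation.EqvGen.setoid (core1 φ h hpos).adj) (smulV φ h hpos g)
    (fun _ _ hxy => adj_smulV φ h hpos g hxy) i
  one_smul i := by
    obtain ⟨x, rfl⟩ := Quotient.exists_rep i
    change (core1 φ h hpos).cls (smulV φ h hpos 1 x) = (core1 φ h hpos).cls x
    congr 1
    exact Subtype.ext (single_one_smul (x : M))
  mul_smul g k i := by
    obtain ⟨x, rfl⟩ := Quotient.exists_rep i
    change (core1 φ h hpos).cls (smulV φ h hpos (g * k) x) =
      (core1 φ h hpos).cls (smulV φ h hpos g (smulV φ h hpos k x))
    congr 1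
    exact Subtype.ext (single_smul_smul g k (x : M)).symm

lemma act_cls (g : G) (x : (core1 φ h hpos).V) :
    (actI φ h hpos).toSMul.smul g ((core1 φ h hpos).cls x) =
      (core1 φ h hpos).cls (smulV φ h hpos g x) := rfl

lemma P_smul (g : G) (i : (core1 φ h hpos).I) {x : M} (hx : x ∈ (core1 φ h hpos).P i) :
    single g (1 : R) • x ∈ (core1 φ h hpos).P ((actI φ h hpos).toSMul.smul g i) := by
  unfold Core.P at hx
  induction hx using AddSubgroup.closure_induction with
  | zero => rw [smul_zero]; exact AddSubgroup.zero_mem _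
  | add u v _ _ hu hv => rw [smul_add]; exact AddSubgroup.add_mem _ hu hv
  | neg u _ hu => rw [smul_neg]; exact AddSubgroup.neg_mem _ hu
  | mem u hu =>
    obtain ⟨hu1, rfl⟩ := hu
    rw [act_cls]
    exact (core1 φ h hpos).mem_P (smulV φ h hpos g ⟨u, hu1⟩)

/-- frames of `M` are decompositions -/
lemma IsFrame.dec {J : Type x} [MulAction G J] {N : J → AddSubgroup M}
    (hN : IsFrame lam (⊤ : Submodule (MonoidAlgebra R G) M) N) : (core1 φ h hpos).Dec N :=
  ⟨hN.orth, fun y => by
    rw [hN.sup]
    exact (Submodule.mem_top : y ∈ (⊤ : Submodule (MonoidAlgebra R G) M))⟩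

/-- the finest frame -/
lemma isFrame_P : letI := actI φ h hpos
    IsFrame lam (⊤ : Submodule (MonoidAlgebra R G) M) (core1 φ h hpos).P := by
  let _ := actI φ h hpos
  refine ⟨fun i j hij x hx y hy => (core1 φ h hpos).P_orth hij hx hy,
    fun g i x hx => P_smul φ h hpos g i hx, ?_⟩
  have h1 : (⨆ i, (core1 φ h hpos).P i) = ⊤ := by
    rw [eq_top_iff]
    exact fun x _ => (core1 φ h hpos).P_sup x
  rw [h1]
  rfl

/-- the finest frame is finer than all frames, equivariantly -/
lemma finest_equivariant {J : Type x} [MulAction G J] {N : J → AddSubgroup M}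
    (hN : IsFrame lam (⊤ : Submodule (MonoidAlgebra R G) M) N) :
    letI := actI φ h hpos
    ∃ f : (core1 φ h hpos).I → J, (∀ (g : G) i, f (g • i) = g • f i) ∧
      ∀ i, (core1 φ h hpos).P i ≤ N (f i) := by
  let _ := actI φ h hpos
  have hd := hN.dec φ h hpos
  obtain ⟨f, hf⟩ := (core1 φ h hpos).finest hd
  refine ⟨f, ?_, hf⟩
  intro g i
  obtain ⟨x, rfl⟩ := Quotient.exists_rep i
  change f ((core1 φ h hpos).cls (smulV φ h hpos g x)) = g • f ((core1 φ h hpos).cls x)
  refine hd.unique (x := single g (1 : R) • (x : M)) (single_smul_ne g x.2.1) ?_ ?_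
  · exact hf _ ((core1 φ h hpos).mem_P (smulV φ h hpos g x))
  · exact hN.smul g _ _ (hf _ ((core1 φ h hpos).mem_P x))

include φ h hpos in
/-- the members of a frame are stable under `R` -/
lemma frame_stable {J : Type x} [MulAction G J] {N : J → AddSubgroup M}
    (hN : IsFrame lam (⊤ : Submodule (MonoidAlgebra R G) M) N) (r : R) (j : J) {x : M}
    (hx : x ∈ N j) : single (1 : G) r • x ∈ N j := by
  refine (hN.dec φ h hpos).map_mem (fun y => single (1 : G) r • y) ?_ hx
  intro y z hyz
  rw [core1_b, coeff_smul_left_one h]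
  rw [core1_b] at hyz
  rw [hyz, mul_zero]

include h in
/-- the values of the form on a frame -/
lemma frame_values {P : Submodule (MonoidAlgebra R G) M} {J : Type x} [MulAction G J]
    {N : J → AddSubgroup M} (hN : IsFrame lam P N) (i j : J) (g : G) (hg : g • j ≠ i)
    {x y : M} (hx : x ∈ N i) (hy : y ∈ N j) : (lam x y).coeff g = 0 := by
  have h1 := hN.orth i (g • j) (Ne.symm hg) x hx _ (hN.smul g j y hy)
  rw [coeff_smul_right h, star_one, mul_one] at h1
  exact h1

end Pool.Agent.TH254.DK
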