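import Pool.Agent.TH254.DK.LatDefs

/-!
Induction and restriction of hermitian forms along an injective homomorphism of groups.
-/

set_option autoImplicit false

namespace Pool.Agent.TH254.DK

universe u v w

variable {R : Type u} [Ring R] [StarRing R] {G K : Type w} [Group G] [Group K]
variable {M N : Type v} [AddCommGroup M] [AddCommGroup N]
variable [Module (MonoidAlgebra R G) M] [Module (MonoidAlgebra R K) N]

/-- the additive map `j` is compatible with the actions of `R` and of `G` (which acts on `N`
through `ι`), and it preserves the coefficients of the forms at the elements of `G` -/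
structure Carries (ι : G →* K) (lam : M → M → MonoidAlgebra R G)
    (kap : N → N → MonoidAlgebra R K) (j : M →+ N) : Prop where
  smul : ∀ (g : G) (r : R) (x : M),
    j (MonoidAlgebra.single g r • x) = MonoidAlgebra.single (ι g) r • j x
  form : ∀ (x y : M) (g : G), (kap (j x) (j y)).coeff (ι g) = (lam x y).coeff g

/-- `(N, kap)` is the form over `R[K]` induced from the form `(M, lam)` over `R[G]`: on `j (M)` the
values of `kap` are those of `lam`, and `j (M)` generates `N` (for positive forms it follows that
`N` is `R[K] ⊗ M` over `R[G]`). -/
structure IsInduction (ι : G →* K) (lam : M → M → MonoidAlgebra R G)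
    (kap : N → N → MonoidAlgebra R K) (j : M →+ N) : Prop where
  carries : Carries ι lam kap j
  supp : ∀ (x y : M) (k : K), k ∉ ι.range → (kap (j x) (j y)).coeff k = 0
  span : Submodule.span (MonoidAlgebra R K) (Set.range j) = ⊤

/-- `(M, lam)` is the restriction to `R[G]` of the form `(N, kap)` over `R[K]`: the module is the
same, and `lam x y` is the part of `kap x y` which is supported on `G`. -/
structure IsRestriction (ι : G →* K) (lam : M → M → MonoidAlgebra R G)
    (kap : N → N → MonoidAlgebra R K) (j : M →+ N) : Prop where
  carries : Carries ι lam kap j
  bij : Function.Bijective j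

/-- `(M, lam)` is an orthogonal sum of forms induced from finite subgroups of `G` -/
def SumOfFinite (lam : M → M → MonoidAlgebra R G) : Prop :=
  InducedOver {L : Subgroup G | Finite L} lam ⊤

/-- the group has no elements of finite order other than `1` -/
def TorsionFreeGroup (G : Type w) [Group G] : Prop := ∀ (g : G) (n : ℕ), 0 < n → g ^ n = 1 → g = 1

end Pool.Agent.TH254.DK
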