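import Pool.Agent.TH254.DK.LatMain
import Pool.Agent.TH254.DK.InhDefs

/-!
Induction and restriction of positive hermitian forms: orthogonal sums of forms induced from
finite subgroups.
-/

set_option autoImplicit false

namespace Pool.Agent.TH254.DK

open Pool.Agent.TH254.DF
open MonoidAlgebra (single)

universe u v w

variable {R : Type u} [Ring R] [StarRing R] {G K : Type w} [Group G] [Group K]
variable {M N : Type v} [AddCommGroup M] [AddCommGroup N]
variable [Module (MonoidAlgebra R G) M] [Module (MonoidAlgebra R K) N]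
variable {lam : M → M → MonoidAlgebra R G} {kap : N → N → MonoidAlgebra R K}
variable {ι : G →* K} {j : M →+ N}

omit [StarRing R] in
lemma Carries.form1 (hj : Carries ι lam kap j) (x y : M) :
    (kap (j x) (j y)).coeff 1 = (lam x y).coeff 1 := by
  have := hj.form x y 1
  rwa [map_one] at this

omit [StarRing R] in
lemma Carries.smul1 (hj : Carries ι lam kap j) (r : R) (x : M) :
    j (single (1 : G) r • x) = single (1 : K) r • j x := by
  have := hj.smul 1 r x
  rwa [map_one] at this

lemma Carries.inj (φ : R →+ ℤ) (hj : Carries ι lam kap j)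
    (hpos : PositiveFor φ lam) (h' : IsHermitian kap) : Function.Injective j := by
  rw [injective_iff_map_eq_zero]
  intro x hx
  by_contra hx0
  have h1 := hpos x hx0
  rw [← hj.form1, hx] at h1
  have h2 : kap 0 0 = 0 := by
    have := h'.smul_left 0 0 0
    rwa [zero_smul, zero_mul] at this
  rw [h2] at h1
  simp at h1

omit [StarRing R] in
/-- images of finitely generated `R`-modules -/
lemma fg_map (hj : Carries ι lam kap j) {A : AddSubgroup M} (hA : FGOver R G A) :
    FGOver R K (A.map j) := by
  classical
  obtain ⟨s, rfl⟩ := hA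
  refine ⟨s.image j, le_antisymm ?_ ?_⟩
  · rw [AddSubgroup.map_le_iff_le_comap]
    refine rspan_le ?_ ?_
    · intro x hx
      rw [AddSubgroup.mem_comap]
      exact subset_rspan (by rw [Finset.coe_image]; exact ⟨x, hx, rfl⟩)
    · intro r x hx
      rw [AddSubgroup.mem_comap] at hx ⊢
      rw [hj.smul1]
      exact rspan_stable _ r hx
  · refine rspan_le ?_ ?_
    · intro y hy
      rw [Finset.coe_image] at hy
      obtain ⟨x, hx, rfl⟩ := hy
      exact ⟨x, subset_rspan hx, rfl⟩
    · rintro r y ⟨x, hx, rfl⟩
      exact ⟨single (1 : G) r • x, rspan_stable _ r hx, hj.smul1 r x⟩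

omit [StarRing R] in
/-- preimages of finitely generated `R`-modules -/
lemma fg_comap (hj : Carries ι lam kap j) (hinj : Function.Injective j) {A : AddSubgroup N}
    (hA : FGOver R K A) (hle : A ≤ j.range) : FGOver R G (A.comap j) := by
  classical
  obtain ⟨s, rfl⟩ := hA
  have hc : ∀ y : N, ∃ x : M, y ∈ s → j x = y := by
    intro y
    by_cases hy : y ∈ s
    · obtain ⟨x, hx⟩ := hle (subset_rspan (R := R) (G := K) (s := (s : Set N)) hy)
      exact ⟨x, fun _ => hx⟩
    · exact ⟨0, fun h => absurd h hy⟩
  choose p hp using hc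
  refine ⟨s.image p, le_antisymm ?_ ?_⟩
  · have h1 : RSpan R K (s : Set N) ≤ (RSpan R G ((s.image p : Finset M) : Set M)).map j := by
      refine rspan_le ?_ ?_
      · intro y hy
        exact ⟨p y, subset_rspan (by rw [Finset.coe_image]; exact ⟨y, hy, rfl⟩), hp y hy⟩
      · rintro r y ⟨x, hx, rfl⟩
        exact ⟨single (1 : G) r • x, rspan_stable _ r hx, hj.smul1 r x⟩
    intro x hx
    obtain ⟨z, hz, hzx⟩ := h1 hx
    rwa [← hinj hzx]
  · refine rspan_le ?_ ?_
    · intro x hx
      rw [Finset.coe_image] at hx
      obtain ⟨y, hy, rfl⟩ := hx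
      rw [AddSubgroup.mem_comap, hp y hy]
      exact subset_rspan hy
    · intro r x hx
      rw [AddSubgroup.mem_comap] at hx ⊢
      rw [hj.smul1]
      exact rspan_stable _ r hx

omit [StarRing R] in
/-- additive generators of induced modules -/
lemma IsInduction.gen (hj : IsInduction ι lam kap j) (z : N) :
    z ∈ AddSubgroup.closure {y | ∃ (k : K) (r : R) (x : M), y = single k r • j x} := by
  have hz : z ∈ Submodule.span (MonoidAlgebra R K) (Set.range j) := by
    rw [hj.span]; exact Submodule.mem_top
  have hstab : ∀ (a : MonoidAlgebra R K) (y : N),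
      y ∈ AddSubgroup.closure {y | ∃ (k : K) (r : R) (x : M), y = single k r • j x} →
      a • y ∈ AddSubgroup.closure {y | ∃ (k : K) (r : R) (x : M), y = single k r • j x} := by
    intro a y hy
    induction a using MonoidAlgebra.induction_linear with
    | zero => rw [zero_smul]; exact AddSubgroup.zero_mem _
    | add a b ha hb => rw [add_smul]; exact AddSubgroup.add_mem _ ha hb
    | single g r =>
      induction hy using AddSubgroup.closure_induction with
      | zero => rw [smul_zero]; exact AddSubgroup.zero_mem _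
      | add a b _ _ ha hb => rw [smul_add]; exact AddSubgroup.add_mem _ ha hb
      | neg a _ ha => rw [smul_neg]; exact AddSubgroup.neg_mem _ ha
      | mem y hy =>
        obtain ⟨k, t, x, rfl⟩ := hy
        refine AddSubgroup.subset_closure ⟨g * k, r * t, x, ?_⟩
        rw [smul_smul, MonoidAlgebra.single_mul_single]
  induction hz using Submodule.span_induction with
  | zero => exact AddSubgroup.zero_mem _
  | add a b _ _ ha hb => exact AddSubgroup.add_mem _ ha hb
  | smul a y _ hy => exact hstab a y hy
  | mem y hy =>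
    obtain ⟨x, rfl⟩ := hy
    exact AddSubgroup.subset_closure ⟨1, 1, x, (single_one_smul (R := R) (G := K) _).symm⟩

omit [StarRing R] in
/-- generators of `M` over `R[G]` give generators over `R[K]` -/
lemma Carries.finite (hj : Carries ι lam kap j)
    (hspan : Submodule.span (MonoidAlgebra R K) (Set.range j) = ⊤)
    [Module.Finite (MonoidAlgebra R G) M] :
    Module.Finite (MonoidAlgebra R K) N := by
  classical
  obtain ⟨S, hS⟩ := (Module.Finite.fg_top : (⊤ : Submodule (MonoidAlgebra R G) M).FG)
  refine ⟨⟨S.image j, ?_⟩⟩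
  rw [eq_top_iff, ← hspan, Submodule.span_le]
  rintro y ⟨x, rfl⟩
  have hx : x ∈ Submodule.span (MonoidAlgebra R G) (S : Set M) := by
    rw [hS]; exact Submodule.mem_top
  induction hx using Submodule.span_induction with
  | zero => rw [map_zero]; exact Submodule.zero_mem _
  | add a b _ _ ha hb => rw [map_add]; exact Submodule.add_mem _ ha hb
  | mem y hy =>
    refine Submodule.subset_span ?_
    rw [Finset.coe_image]
    exact ⟨y, hy, rfl⟩
  | smul a y _ hy =>
    induction a using MonoidAlgebra.induction_linear with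
    | zero => rw [zero_smul, map_zero]; exact Submodule.zero_mem _
    | add a b ha hb => rw [add_smul, map_add]; exact Submodule.add_mem _ ha hb
    | single g r =>
      rw [hj.smul]
      exact Submodule.smul_mem _ _ hy

omit [StarRing R] in
/-- induced modules are finitely generated -/
lemma IsInduction.finite (hj : IsInduction ι lam kap j) [Module.Finite (MonoidAlgebra R G) M] :
    Module.Finite (MonoidAlgebra R K) N := hj.carries.finite hj.span

omit [StarRing R] in
lemma IsRestriction.finite (hj : IsRestriction ι lam kap j)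
    [Module.Finite (MonoidAlgebra R G) M] : Module.Finite (MonoidAlgebra R K) N :=
  hj.carries.finite (by rw [hj.bij.2.range_eq, Submodule.span_univ])

omit [StarRing R] in
/-- restrictions to subgroups of finite index are finitely generated -/
lemma IsRestriction.finite_of_index (hj : IsRestriction ι lam kap j)
    [Module.Finite (MonoidAlgebra R K) N] (hind : ι.range.FiniteIndex) :
    Module.Finite (MonoidAlgebra R G) M := by
  classical
  obtain ⟨S, hS⟩ := (Module.Finite.fg_top : (⊤ : Submodule (MonoidAlgebra R K) N).FG)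
  have hq : Finite (K ⧸ ι.range) := inferInstance
  have hc : ∀ y : N, ∃ x : M, j x = y := hj.bij.2
  choose p hp using hc
  let T : Set M := {x | ∃ (q : K ⧸ ι.range), ∃ s ∈ S,
    x = p (single (q.out)⁻¹ (1 : R) • s)}
  have hT : T.Finite := by
    have h1 : T ⊆ ⋃ (q : K ⧸ ι.range), (fun s => p (single (q.out)⁻¹ (1 : R) • s)) '' (S : Set N) := by
      rintro x ⟨q, s, hs, rfl⟩
      exact Set.mem_iUnion.2 ⟨q, ⟨s, hs, rfl⟩⟩
    exact (Set.finite_iUnion fun q => S.finite_toSet.image _).subset h1
  refine ⟨⟨hT.toFinset, ?_⟩⟩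
  rw [Set.Finite.coe_toFinset, eq_top_iff]
  intro x _
  let W : AddSubgroup N := ((Submodule.span (MonoidAlgebra R G) T).toAddSubgroup).map j
  -- the products `k r s`
  have h1 : ∀ (k : K) (r : R), ∀ s ∈ S, single k r • s ∈ W := by
    intro k r s hs
    have hk : ((k⁻¹ : K) : K ⧸ ι.range).out⁻¹ * k⁻¹ ∈ ι.range := by
      rw [← QuotientGroup.eq, QuotientGroup.out_eq']
    obtain ⟨g, hg⟩ := hk
    have hk2 : k = ι g⁻¹ * ((k⁻¹ : K) : K ⧸ ι.range).out⁻¹ := by
      rw [map_inv, hg]; group
    have h2 : single k r • s =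
        j (single g⁻¹ r • p (single ((k⁻¹ : K) : K ⧸ ι.range).out⁻¹ (1 : R) • s)) := by
      rw [hj.carries.smul, hp, smul_smul, MonoidAlgebra.single_mul_single, mul_one, ← hk2]
    rw [h2]
    exact ⟨_, Submodule.smul_mem _ _ (Submodule.subset_span ⟨_, s, hs, rfl⟩), rfl⟩
  have h2 : ∀ (a : MonoidAlgebra R K) (s : N), s ∈ S → a • s ∈ W := by
    intro a s hs
    induction a using MonoidAlgebra.induction_linear with
    | zero => rw [zero_smul]; exact AddSubgroup.zero_mem _
    | add a b ha hb => rw [add_smul]; exact AddSubgroup.add_mem _ ha hb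
    | single k r => exact h1 k r s hs
  have h3 : ∀ z : N, z ∈ W := by
    intro z
    have hz : z ∈ Submodule.span (MonoidAlgebra R K) (S : Set N) := by
      rw [hS]; exact Submodule.mem_top
    obtain ⟨c, hc⟩ := Submodule.mem_span_finset.1 hz
    rw [← hc.2]
    exact AddSubgroup.sum_mem _ fun s hs => h2 _ s hs
  obtain ⟨y, hy, hyx⟩ := h3 (j x)
  rwa [← hj.bij.1 hyx]

/-- **the induced form splits only if the form splits** -/
theorem splits_of_induction (φ : R →+ ℤ) (hpos : PositiveFor φ lam)
    (h' : IsHermitian kap) (hpos' : PositiveFor φ kap) [Module.Finite (MonoidAlgebra R G) M]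
    (hj : IsInduction ι lam kap j) (hs : LatticeSplits kap) : LatticeSplits lam := by
  classical
  have hfin : Module.Finite (MonoidAlgebra R K) N := hj.finite
  obtain ⟨J, F, ho, hsup, hfg⟩ := hs
  let _ := actI φ h' hpos'
  have hst : ∀ i : (core1 φ h' hpos').I, Finite (MulAction.stabilizer K i) :=
    fun i => finite_stab φ h' hpos' F ho hsup hfg i
  have hP : ∀ i : (core1 φ h' hpos').I, FGOver R K ((core1 φ h' hpos').P i) :=
    fun i => fg_of_finite_stab φ h' hpos' hst i
  have hinj : Function.Injective j := hj.carries.inj φ hpos h'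
  -- the orthogonal complement of `j (M)`
  let C : AddSubgroup N :=
    { carrier := {w | ∀ x : M, (core1 φ h' hpos').b w (j x) = 0}
      zero_mem' := fun x => by rw [map_zero, AddMonoidHom.zero_apply]
      add_mem' := fun {a b} ha hb x => by
        rw [map_add, AddMonoidHom.add_apply, ha x, hb x, add_zero]
      neg_mem' := fun {a} ha x => by
        rw [map_neg, AddMonoidHom.neg_apply, ha x, neg_zero] }
  let D : Bool → AddSubgroup N := fun t => if t then j.range else C
  have hD : (core1 φ h' hpos').Dec D := by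
    refine ⟨?_, ?_⟩
    · intro s t hst x hx y hy
      cases s <;> cases t
      · exact absurd rfl hst
      · obtain ⟨a, rfl⟩ := (show y ∈ j.range from hy)
        exact (show x ∈ C from hx) a
      · obtain ⟨a, rfl⟩ := (show x ∈ j.range from hx)
        exact (core1 φ h' hpos').symm0 _ _ ((show y ∈ C from hy) a)
      · exact absurd rfl hst
    · intro z
      have hz := hj.gen z
      refine (AddSubgroup.closure_le (⨆ t, D t)).2 ?_ hz
      rintro y ⟨k, r, x, rfl⟩
      by_cases hk : k ∈ ι.range
      · obtain ⟨g, rfl⟩ := hk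
        refine (le_iSup D true) ?_
        change _ ∈ j.range
        exact ⟨_, hj.carries.smul g r x⟩
      · refine (le_iSup D false) ?_
        change _ ∈ C
        intro y
        rw [core1_b, h'.smul_left, MonoidAlgebra.coeff_single_mul_apply, mul_one,
          hj.supp x y k⁻¹ (fun hh => hk ((inv_mem_iff).1 hh)), mul_zero]
  obtain ⟨f, hf⟩ := (core1 φ h' hpos').finest hD
  let S : AddSubgroup M :=
    ⨆ t : {i : (core1 φ h' hpos').I // (core1 φ h' hpos').P i ≤ j.range},
      ((core1 φ h' hpos').P t.1).comap j
  have hS : ∀ i, (core1 φ h' hpos').P i ≤ j.range → (core1 φ h' hpos').P i ≤ S.map j := by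
    intro i hi y hy
    obtain ⟨x, rfl⟩ := hi hy
    exact ⟨x, (le_iSup (fun t : {i : (core1 φ h' hpos').I //
      (core1 φ h' hpos').P i ≤ j.range} => ((core1 φ h' hpos').P t.1).comap j) ⟨i, hi⟩) hy, rfl⟩
  refine ⟨{i : (core1 φ h' hpos').I // (core1 φ h' hpos').P i ≤ j.range},
    fun t => ((core1 φ h' hpos').P t.1).comap j, ?_, ?_, ?_⟩
  · intro s t hst x hx y hy
    rw [← hj.carries.form1]
    exact (core1 φ h' hpos').P_orth (fun hh => hst (Subtype.ext hh)) hx hy
  · rw [eq_top_iff]
    intro x _
    change x ∈ S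
    -- `j x` is the sum of a vector of `j (S)` and of a vector of `C`
    have h1 : (⨆ i, (core1 φ h' hpos').P i) ≤ S.map j ⊔ C := by
      refine iSup_le fun i => ?_
      have hfi := hf i
      cases hb : f i
      · rw [hb] at hfi
        exact (show (core1 φ h' hpos').P i ≤ C from hfi).trans le_sup_right
      · rw [hb] at hfi
        exact (hS i hfi).trans le_sup_left
    obtain ⟨a, ha, b, hb, hab⟩ := AddSubgroup.mem_sup.1 (h1 ((core1 φ h' hpos').P_sup (j x)))
    obtain ⟨y, hy, rfl⟩ := ha
    have hb1 : b = j (x - y) := by rw [map_sub, ← hab]; abel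
    have hb0 : b = 0 := by
      refine (core1 φ h' hpos').eq_zero_of_self ?_
      have := hb (x - y)
      rwa [← hb1] at this
    rw [hb0, add_zero] at hab
    rwa [← hinj hab]
  · intro t
    exact fg_comap hj.carries hinj (hP t.1) t.2

/-- **the induced form splits if the form splits** -/
theorem induction_splits (φ : R →+ ℤ) (h' : IsHermitian kap) (hpos' : PositiveFor φ kap)
    [Module.Finite (MonoidAlgebra R G) M]
    (hj : IsInduction ι lam kap j) (hs : LatticeSplits lam) : LatticeSplits kap := by
  classical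
  have hfin : Module.Finite (MonoidAlgebra R K) N := hj.finite
  obtain ⟨J, F, ho, hsup, hfg⟩ := hs
  let E : (K ⧸ ι.range) × J → AddSubgroup N := fun q =>
    ((F q.2).map j).map (DistribSMul.toAddMonoidHom N (single q.1.out (1 : R)))
  have hmem : ∀ q y, y ∈ E q ↔ ∃ b ∈ (F q.2).map j, single q.1.out (1 : R) • b = y :=
    fun q y => Iff.rfl
  rw [← lattice_iff φ h' hpos']
  let _ := actI φ h' hpos'
  refine ⟨(core1 φ h' hpos').I, actI φ h' hpos', (core1 φ h' hpos').P, isFrame_P φ h' hpos', ?_⟩
  intro i
  refine ⟨MulAction.stabilizer K i, finite_stab φ h' hpos' E ?_ ?_ ?_ i, le_rfl⟩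
  · rintro ⟨q, l⟩ ⟨q', l'⟩ hne x hx y hy
    obtain ⟨_, ⟨a, ha, rfl⟩, rfl⟩ := (hmem _ _).1 hx
    obtain ⟨_, ⟨b, hb, rfl⟩, rfl⟩ := (hmem _ _).1 hy
    rw [coeff_smul_right h', h'.smul_left, MonoidAlgebra.coeff_single_mul_apply, one_mul,
      star_one, mul_one]
    by_cases hk : (q.out)⁻¹ * q'.out ∈ ι.range
    · have hq : q = q' := by
        rw [← QuotientGroup.eq, QuotientGroup.out_eq', QuotientGroup.out_eq'] at hk
        exact hk
      subst hq
      have hl : l ≠ l' := fun hh => hne (by rw [hh])
      change (kap (j a) (j b)).coeff ((q.out)⁻¹ * q.out) = 0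
      rw [inv_mul_cancel, hj.carries.form1]
      exact ho l l' hl a ha b hb
    · exact hj.supp a b _ hk
  · rw [eq_top_iff]
    intro z _
    refine (AddSubgroup.closure_le (⨆ t, E t)).2 ?_ (hj.gen z)
    rintro y ⟨k, r, x, rfl⟩
    have hk : ((k : K ⧸ ι.range).out)⁻¹ * k ∈ ι.range := by
      rw [← QuotientGroup.eq, QuotientGroup.out_eq']
    obtain ⟨g, hg⟩ := hk
    have h1 : single k r • j x =
        single ((k : K ⧸ ι.range).out) (1 : R) • j (single g r • x) := by
      rw [hj.carries.smul, smul_smul, MonoidAlgebra.single_mul_single, one_mul, hg,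
        mul_inv_cancel_left]
    rw [SetLike.mem_coe, h1]
    have h2 : single g r • x ∈ ⨆ l, F l := by rw [hsup]; exact AddSubgroup.mem_top _
    clear h1 hg
    generalize single g r • x = m at h2 ⊢
    induction h2 using AddSubgroup.iSup_induction' with
    | h1 => rw [map_zero, smul_zero]; exact AddSubgroup.zero_mem _
    | hadd a b _ _ ha hb => rw [map_add, smul_add]; exact AddSubgroup.add_mem _ ha hb
    | hp l y hy =>
      exact (le_iSup E ((k : K ⧸ ι.range), l)) ((hmem _ _).2 ⟨j y, ⟨y, hy, rfl⟩, rfl⟩)
  · rintro ⟨q, l⟩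
    obtain ⟨s, hs⟩ := fg_map hj.carries (hfg l)
    refine ⟨s.image (fun x => single q.out (1 : R) • x), ?_⟩
    have hr : ∀ (r : R) (y : N), single q.out (1 : R) • single (1 : K) r • y =
        single (1 : K) r • single q.out (1 : R) • y := by
      intro r y
      simp only [smul_smul, MonoidAlgebra.single_mul_single, mul_one, one_mul]
    refine le_antisymm ?_ ?_
    · intro y hy
      obtain ⟨b, hb, rfl⟩ := (hmem _ _).1 hy
      clear hy
      change b ∈ (F l).map j at hb
      rw [hs] at hb
      unfold RSpan at hb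
      change single q.out (1 : R) • b ∈ _
      induction hb using AddSubgroup.closure_induction with
      | zero => rw [smul_zero]; exact AddSubgroup.zero_mem _
      | add a b _ _ ha hb => rw [smul_add]; exact AddSubgroup.add_mem _ ha hb
      | neg a _ ha => rw [smul_neg]; exact AddSubgroup.neg_mem _ ha
      | mem y hy =>
        obtain ⟨r, y, hy, rfl⟩ := hy
        rw [hr]
        exact rspan_stable _ r (subset_rspan (by
          rw [Finset.coe_image]; exact ⟨y, hy, rfl⟩))
    · refine rspan_le ?_ ?_
      · intro y hy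
        rw [Finset.coe_image] at hy
        obtain ⟨x, hx, rfl⟩ := hy
        refine (hmem _ _).2 ⟨x, ?_, rfl⟩
        change x ∈ (F l).map j
        rw [hs]
        exact subset_rspan hx
      · intro r x hx
        obtain ⟨b, hb, rfl⟩ := (hmem _ _).1 hx
        refine (hmem _ _).2 ⟨single (1 : K) r • b, ?_, hr r b⟩
        change b ∈ (F l).map j at hb
        change _ ∈ (F l).map j
        rw [hs] at hb ⊢
        exact rspan_stable _ r hb

/-- **restriction** -/
theorem restriction_iff (φ : R →+ ℤ) (hpos : PositiveFor φ lam)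
    (h' : IsHermitian kap) (hj : IsRestriction ι lam kap j) :
    LatticeSplits kap ↔ LatticeSplits lam := by
  have hinj : Function.Injective j := hj.carries.inj φ hpos h'
  have htop : j.range = ⊤ := AddMonoidHom.range_eq_top.2 hj.bij.2
  constructor
  · rintro ⟨J, F, ho, hsup, hfg⟩
    refine ⟨J, fun l => (F l).comap j, ?_, ?_, ?_⟩
    · intro s t hst x hx y hy
      rw [← hj.carries.form1]
      exact ho s t hst _ hx _ hy
    · rw [eq_top_iff]
      intro x _
      have h1 : (⨆ l, F l) ≤ (⨆ l, (F l).comap j).map j := by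
        refine iSup_le fun l => ?_
        intro y hy
        obtain ⟨z, rfl⟩ := hj.bij.2 y
        exact ⟨z, (le_iSup (fun l => (F l).comap j) l) hy, rfl⟩
      obtain ⟨z, hz, hzx⟩ := h1 (by rw [hsup]; exact AddSubgroup.mem_top (j x))
      rwa [← hinj hzx]
    · intro l
      exact fg_comap hj.carries hinj (hfg l) (by rw [htop]; exact le_top)
  · rintro ⟨J, F, ho, hsup, hfg⟩
    refine ⟨J, fun l => (F l).map j, ?_, ?_, ?_⟩
    · rintro s t hst _ ⟨x, hx, rfl⟩ _ ⟨y, hy, rfl⟩
      rw [hj.carries.form1]
      exact ho s t hst _ hx _ hy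
    · rw [← AddSubgroup.map_iSup, hsup, ← AddMonoidHom.range_eq_map, htop]
    · intro l
      exact fg_map hj.carries (hfg l)

end Pool.Agent.TH254.DK
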