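import Pool.Agent.TH254.DK.Defs

/-!
Isometries of hermitian forms over `R[G]` which are induced from subgroups with a normal subgroup
and cyclic quotient.
-/

set_option autoImplicit false

namespace Pool.Agent.TH254.DK

universe u v w

variable {R : Type u} [Ring R] [StarRing R] {G : Type w} [Group G]
variable {M : Type v} [AddCommGroup M] [Module (MonoidAlgebra R G) M]

/-- The pair `(M, lam)`, `β` is the orthogonal sum of the pairs induced from `L j`, `β` over the
subgroups `V j`: the groups `L j` are stable under `R`, `V j`, `β` and `β⁻¹`; the translates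
`g L j`, `g` in `G / V j`, are orthogonal to each other; and they generate `M`. Moreover `H j` is
a normal subgroup of `V j` with cyclic quotient. (For positive `lam` it follows that `M` is the
direct sum of the modules `R[G] ⊗ L j` over `R[V j]`, and `β` the sum of the maps induced by the
restrictions of `β` to `L j`.) -/
structure InducedPair (lam : M → M → MonoidAlgebra R G) (β : M → M) {m : ℕ}
    (V H : Fin m → Subgroup G) (L : Fin m → AddSubgroup M) : Prop where
  normal : ∀ j, ∀ v ∈ V j, ∀ k ∈ H j, v * k * v⁻¹ ∈ H j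
  cyclic : ∀ j, ∃ g : G, V j = H j ⊔ Subgroup.zpowers g
  scalar : ∀ j, ∀ r : R, ∀ x ∈ L j, MonoidAlgebra.single (1 : G) r • x ∈ L j
  stable : ∀ j, ∀ v ∈ V j, ∀ x ∈ L j, MonoidAlgebra.single v (1 : R) • x ∈ L j
  invariant : ∀ j x, x ∈ L j ↔ β x ∈ L j
  supported : ∀ j, ∀ x ∈ L j, ∀ y ∈ L j, ∀ g : G, g ∉ V j → (lam x y).coeff g = 0
  orthogonal : ∀ i j, i ≠ j → ∀ x ∈ L i, ∀ y ∈ L j, lam x y = 0
  generate : ∀ x : M, x ∈ Submodule.span (MonoidAlgebra R G) (⋃ j, (L j : Set M))

end Pool.Agent.TH254.DK
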