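import Pool.Agent.TH254.DK.Unique
import Pool.Agent.TH254.DK.IsoDefs

/-!
Isometries of finitely generated positive forms are induced from subgroups `V` with
`V / H` cyclic, `H` a stabiliser of the finest frame.
-/

set_option autoImplicit false

namespace Pool.Agent.TH254.DK

open Pool.Agent.TH254.DF
open MonoidAlgebra (single)

universe u v w x

section Sets

variable {G : Type w} [Group G] {I : Type x} [MulAction G I] (f : Equiv.Perm I)
  (hf : ∀ (g : G) (i : I), f (g • i) = g • f i)

include hf in
lemma zpow_smul (n : ℤ) (g : G) (i : I) : (f ^ n) (g • i) = g • (f ^ n) i := by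
  have h1 : Commute f (MulAction.toPerm g : Equiv.Perm I) := by
    apply Equiv.ext
    intro k
    exact hf g k
  have h2 := (h1.zpow_left n)
  have h3 := congrArg (fun p : Equiv.Perm I => p i) h2.eq
  exact h3

/-- elements which move `i` inside its orbit under `f` -/
def moverGroup (i : I) : Subgroup G where
  carrier := {g | ∃ n : ℤ, g • i = (f ^ n) i}
  mul_mem' := by
    rintro a b ⟨n, hn⟩ ⟨k, hk⟩
    refine ⟨k + n, ?_⟩
    rw [mul_smul, hk, ← zpow_smul f hf, hn, zpow_add, Equiv.Perm.mul_apply]
  one_mem' := ⟨0, by rw [one_smul, zpow_zero]; rfl⟩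
  inv_mem' := by
    rintro a ⟨n, hn⟩
    refine ⟨-n, ?_⟩
    rw [inv_smul_eq_iff, ← zpow_smul f hf, hn, ← Equiv.Perm.mul_apply, ← zpow_add]
    simp

lemma mem_mover (i : I) (g : G) : g ∈ moverGroup f hf i ↔ ∃ n : ℤ, g • i = (f ^ n) i := Iff.rfl

lemma mover_normal (i : I) (v : G) (hv : v ∈ moverGroup f hf i) (k : G)
    (hk : k ∈ MulAction.stabilizer G i) : v * k * v⁻¹ ∈ MulAction.stabilizer G i := by
  obtain ⟨n, hn⟩ := hv
  rw [MulAction.mem_stabilizer_iff] at hk ⊢
  have h1 : v⁻¹ • i = (f ^ (-n)) i := by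
    rw [inv_smul_eq_iff, ← zpow_smul f hf, hn, ← Equiv.Perm.mul_apply, ← zpow_add]
    simp
  rw [mul_smul, mul_smul, h1, ← zpow_smul f hf, hk, ← zpow_smul f hf, hn, ← Equiv.Perm.mul_apply,
    ← zpow_add]
  simp

/-- the quotient is cyclic -/
lemma mover_cyclic (i : I) :
    ∃ g : G, moverGroup f hf i = MulAction.stabilizer G i ⊔ Subgroup.zpowers g := by
  -- the exponents `n` with `f ^ n i` in the orbit of `i`
  let E : AddSubgroup ℤ :=
    { carrier := {n | ∃ g : G, (f ^ n) i = g • i}
      add_mem' := by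
        rintro a b ⟨g, hg⟩ ⟨k, hk⟩
        refine ⟨k * g, ?_⟩
        rw [zpow_add, Equiv.Perm.mul_apply, hk, zpow_smul f hf, hg, mul_smul]
      zero_mem' := ⟨1, by rw [one_smul, zpow_zero]; rfl⟩
      neg_mem' := by
        rintro a ⟨g, hg⟩
        refine ⟨g⁻¹, ?_⟩
        rw [eq_inv_smul_iff, ← zpow_smul f hf, ← hg, ← Equiv.Perm.mul_apply, ← zpow_add]
        simp }
  obtain ⟨d, hd⟩ := Int.subgroup_cyclic E
  have hdE : d ∈ E := by rw [hd]; exact AddSubgroup.mem_closure_singleton_self d
  obtain ⟨g, hg⟩ := hdE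
  refine ⟨g, le_antisymm ?_ ?_⟩
  · rintro v ⟨n, hn⟩
    have hnE : n ∈ E := ⟨v, hn.symm⟩
    rw [hd, AddSubgroup.mem_closure_singleton] at hnE
    obtain ⟨q, hq⟩ := hnE
    have h1 : ∀ q : ℤ, (f ^ (q • d)) i = (g ^ q) • i := by
      intro q
      induction q using Int.induction_on with
      | zero => simp
      | succ k ih =>
        rw [add_smul, one_smul, zpow_add, Equiv.Perm.mul_apply, hg, zpow_smul f hf, ih,
          ← mul_smul, zpow_add_one, (Commute.self_zpow g k).eq]
      | pred k ih =>
        rw [sub_smul, one_smul, sub_eq_add_neg, zpow_add, Equiv.Perm.mul_apply]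
        have h2 : (f ^ (-d)) i = g⁻¹ • i := by
          rw [eq_inv_smul_iff, ← zpow_smul f hf, ← hg, ← Equiv.Perm.mul_apply, ← zpow_add]
          simp
        rw [h2, zpow_smul f hf, ih, ← mul_smul, zpow_sub_one]
        congr 1
        exact ((Commute.refl g).zpow_right (-(k : ℤ))).inv_left.eq
    have h3 : v • i = (g ^ q) • i := by rw [hn, ← hq, h1]
    have h4 : (g ^ q)⁻¹ * v ∈ MulAction.stabilizer G i := by
      rw [MulAction.mem_stabilizer_iff, mul_smul, h3, inv_smul_smul]
    have h5 : v = (g ^ q) * ((g ^ q)⁻¹ * v) := by group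
    rw [h5]
    exact Subgroup.mul_mem _ (Subgroup.mem_sup_right (Subgroup.zpow_mem_zpowers g q))
      (Subgroup.mem_sup_left h4)
  · refine sup_le ?_ ?_
    · intro k hk
      rw [MulAction.mem_stabilizer_iff] at hk
      exact ⟨0, by rw [hk, zpow_zero]; rfl⟩
    · rw [Subgroup.zpowers_le]
      exact ⟨d, hg.symm⟩

/-- the equivalence relation generated by `G` and `f` -/
def combSetoid : Setoid I where
  r i k := ∃ (g : G) (n : ℤ), k = g • (f ^ n) i
  iseqv :=
    { refl := fun i => ⟨1, 0, by rw [one_smul, zpow_zero]; rfl⟩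
      symm := by
        rintro i k ⟨g, n, rfl⟩
        refine ⟨g⁻¹, -n, ?_⟩
        rw [zpow_smul f hf, inv_smul_smul, ← Equiv.Perm.mul_apply, ← zpow_add]
        simp
      trans := by
        rintro i j k ⟨g, n, rfl⟩ ⟨g', n', rfl⟩
        refine ⟨g' * g, n' + n, ?_⟩
        rw [zpow_smul f hf, ← mul_smul, zpow_add, Equiv.Perm.mul_apply] }

lemma finite_comb (hfin : FiniteOrbits G I) : Finite (Quotient (combSetoid f hf)) := by
  classical
  obtain ⟨T, hT⟩ := hfin
  refine Finite.of_surjective (fun t : T => (Quotient.mk (combSetoid f hf) (t : I))) ?_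
  intro q
  obtain ⟨i, rfl⟩ := Quotient.exists_rep q
  obtain ⟨t, ht, g, hg⟩ := hT i
  refine ⟨⟨t, ht⟩, Quotient.sound ⟨g, 0, ?_⟩⟩
  rw [hg, zpow_zero]
  rfl

end Sets

section Main

variable {R : Type u} [Ring R] [StarRing R] {G : Type w} [Group G]
variable {M : Type v} [AddCommGroup M] [Module (MonoidAlgebra R G) M]
variable {lam : M → M → MonoidAlgebra R G}

/-- **isometries are induced** -/
theorem isometry_induced (φ : R →+ ℤ) (h : IsHermitian lam) (hpos : PositiveFor φ lam)
    [Module.Finite (MonoidAlgebra R G) M] (F : Set (Subgroup G))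
    {J1 : Type x} [MulAction G J1] {N1 : J1 → AddSubgroup M}
    (hN1 : IsFrame lam (⊤ : Submodule (MonoidAlgebra R G) M) N1)
    (hs1 : ∀ j : J1, ∃ K ∈ F, MulAction.stabilizer G j ≤ K)
    (β : M ≃ₗ[MonoidAlgebra R G] M) (hβ : ∀ x y, lam (β x) (β y) = lam x y) :
    ∃ (m : ℕ) (V H : Fin m → Subgroup G) (L : Fin m → AddSubgroup M),
      InducedPair lam β V H L ∧ ∀ j, ∃ K ∈ F, H j ≤ K := by
  classical
  let _ := actI φ h hpos
  set N : (core1 φ h hpos).I → AddSubgroup M := (core1 φ h hpos).P with hNdef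
  have hfr : IsFrame lam (⊤ : Submodule (MonoidAlgebra R G) M) N := isFrame_P φ h hpos
  have hind : Indecomposable lam N := fun i =>
    ⟨(core1 φ h hpos).P_ne_bot i, fun U V ho hs => (core1 φ h hpos).P_indec i U V ho hs⟩
  obtain ⟨f, hf, hfN⟩ := isometry_frames φ h hpos β hβ hfr hind hfr hind
  have hfin : FiniteOrbits G (core1 φ h hpos).I := finite_orbits φ h hpos
  have hstabF : ∀ i : (core1 φ h hpos).I, ∃ K ∈ F, MulAction.stabilizer G i ≤ K := by
    obtain ⟨f1, hf1, _⟩ := finest_equivariant φ h hpos hN1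
    intro i
    obtain ⟨K1, hK1, hi1⟩ := hs1 (f1 i)
    exact ⟨K1, hK1, (stabilizer_le_of_map f1 hf1 i).trans hi1⟩
  have hfN' : ∀ i x, x ∈ N i → β.symm x ∈ N (f.symm i) := by
    intro i x hx
    rw [hfN, Equiv.apply_symm_apply, LinearEquiv.apply_symm_apply]
    exact hx
  -- representatives
  have hQ := finite_comb f hf hfin
  obtain ⟨m, ⟨e⟩⟩ := Finite.exists_equiv_fin (Quotient (combSetoid f hf))
  let r : Fin m → (core1 φ h hpos).I := fun j => (e.symm j).out
  have hr : ∀ i, ∃ (j : Fin m) (g : G) (n : ℤ), i = g • (f ^ n) (r j) := by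
    intro i
    refine ⟨e (Quotient.mk (combSetoid f hf) i), ?_⟩
    have h1 : Quotient.mk (combSetoid f hf) (r (e (Quotient.mk (combSetoid f hf) i))) =
        Quotient.mk (combSetoid f hf) i := by
      simp only [r]
      rw [Quotient.out_eq, Equiv.symm_apply_apply]
    exact Quotient.exact h1
  have hr2 : ∀ (j k : Fin m) (g : G) (n : ℤ), r k = g • (f ^ n) (r j) → j = k := by
    intro j k g n hjk
    have h1 : Quotient.mk (combSetoid f hf) (r j) = Quotient.mk (combSetoid f hf) (r k) :=
      Quotient.sound ⟨g, n, hjk⟩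
    simp only [r] at h1
    rw [Quotient.out_eq, Quotient.out_eq] at h1
    exact e.symm.injective h1
  let L : Fin m → AddSubgroup M := fun j => ⨆ n : ℤ, N ((f ^ n) (r j))
  have hNL : ∀ (j : Fin m) (n : ℤ), N ((f ^ n) (r j)) ≤ L j :=
    fun j n => le_iSup (fun n : ℤ => N ((f ^ n) (r j))) n
  -- coefficients between members
  have hval : ∀ (j k : Fin m) (g : G), (∀ n n' : ℤ, g • (f ^ n') (r k) ≠ (f ^ n) (r j)) →
      ∀ x ∈ L j, ∀ y ∈ L k, (lam x y).coeff g = 0 := by
    intro j k g hg x hx y hy
    have hb : ∀ a b : M, (lam a b).coeff g = (core1 φ h hpos).b a (single g (1 : R) • b) := by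
      intro a b
      rw [core1_b, coeff_smul_right h, star_one, mul_one]
    rw [hb]
    induction hx using AddSubgroup.iSup_induction' with
    | h1 => rw [map_zero, AddMonoidHom.zero_apply]
    | hadd a b _ _ ha hb => rw [map_add, AddMonoidHom.add_apply, ha, hb, add_zero]
    | hp n x hx =>
      induction hy using AddSubgroup.iSup_induction' with
      | h1 => rw [smul_zero]; exact map_zero _
      | hadd a b _ _ ha hb => rw [smul_add, map_add, ha, hb, add_zero]
      | hp n' y hy =>
        exact hfr.orth _ _ (Ne.symm (hg n n')) x hx _ (hfr.smul g _ y hy)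
  refine ⟨m, fun j => moverGroup f hf (r j), fun j => MulAction.stabilizer G (r j), L,
    ⟨?_, ?_, ?_, ?_, ?_, ?_, ?_, ?_⟩, fun j => hstabF (r j)⟩
  · intro j v hv k hk
    exact mover_normal f hf (r j) v hv k hk
  · intro j
    exact mover_cyclic f hf (r j)
  · intro j s x hx
    induction hx using AddSubgroup.iSup_induction' with
    | h1 => rw [smul_zero]; exact AddSubgroup.zero_mem _
    | hadd a b _ _ ha hb => rw [smul_add]; exact AddSubgroup.add_mem _ ha hb
    | hp n x hx => exact hNL j n (frame_stable φ h hpos hfr s _ hx)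
  · rintro j v ⟨k, hk⟩ x hx
    induction hx using AddSubgroup.iSup_induction' with
    | h1 => rw [smul_zero]; exact AddSubgroup.zero_mem _
    | hadd a b _ _ ha hb => rw [smul_add]; exact AddSubgroup.add_mem _ ha hb
    | hp n x hx =>
      have h1 := hfr.smul v _ x hx
      rw [← zpow_smul f hf, hk, ← Equiv.Perm.mul_apply, ← zpow_add] at h1
      exact hNL j _ h1
  · intro j x
    constructor
    · intro hx
      induction hx using AddSubgroup.iSup_induction' with
      | h1 => rw [map_zero]; exact AddSubgroup.zero_mem _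
      | hadd a b _ _ ha hb => rw [map_add]; exact AddSubgroup.add_mem _ ha hb
      | hp n x hx =>
        have h1 := (hfN _ x).1 hx
        rw [← Equiv.Perm.mul_apply, ← zpow_one_add] at h1
        exact hNL j _ h1
    · intro hx
      have key : ∀ y, y ∈ L j → β.symm y ∈ L j := by
        intro y hy
        induction hy using AddSubgroup.iSup_induction' with
        | h1 => rw [map_zero]; exact AddSubgroup.zero_mem _
        | hadd a b _ _ ha hb => rw [map_add]; exact AddSubgroup.add_mem _ ha hb
        | hp n y hy =>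
          have h1 := hfN' _ y hy
          have h2 : f.symm ((f ^ n) (r j)) = (f ^ (n - 1)) (r j) := by
            rw [Equiv.symm_apply_eq, ← Equiv.Perm.mul_apply, ← zpow_one_add]
            congr 2
            ring
          rw [h2] at h1
          exact hNL j _ h1
      have h3 := key _ hx
      rwa [LinearEquiv.symm_apply_apply] at h3
  · intro j x hx y hy g hg
    refine hval j j g ?_ x hx y hy
    intro n n' hnn
    apply hg
    refine ⟨n - n', ?_⟩
    rw [← zpow_smul f hf] at hnn
    have h1 := congrArg (fun i => (f ^ (-n')) i) hnn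
    simp only [← Equiv.Perm.mul_apply, ← zpow_add] at h1
    rw [neg_add_cancel, zpow_zero, Equiv.Perm.one_apply] at h1
    rw [h1]
    congr 2
    ring
  · intro j k hjk x hx y hy
    apply MonoidAlgebra.coeff_injective
    ext g
    rw [MonoidAlgebra.coeff_zero, Finsupp.zero_apply]
    refine hval j k g ?_ x hx y hy
    intro n n' hnn
    apply hjk
    symm
    rw [← zpow_smul f hf] at hnn
    have h1 := congrArg (fun i => (f ^ (-n)) i) hnn
    simp only [← Equiv.Perm.mul_apply, ← zpow_add] at h1
    rw [neg_add_cancel, zpow_zero, Equiv.Perm.one_apply, zpow_smul f hf] at h1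
    exact hr2 k j g _ h1.symm
  · intro x
    have hx := (core1 φ h hpos).P_sup x
    induction hx using AddSubgroup.iSup_induction' with
    | h1 => exact Submodule.zero_mem _
    | hadd a b _ _ ha hb => exact Submodule.add_mem _ ha hb
    | hp i x hx =>
      obtain ⟨j, g, n, hi⟩ := hr i
      have h1 := hfr.smul g⁻¹ i x hx
      rw [hi, inv_smul_smul] at h1
      have h2 : x = single g (1 : R) • (single g⁻¹ (1 : R) • x) := by
        rw [single_smul_smul, mul_inv_cancel, single_one_smul]
      rw [h2]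
      refine Submodule.smul_mem _ _ (Submodule.subset_span (Set.mem_iUnion.2 ⟨j, ?_⟩))
      exact hNL j n h1

end Main

end Pool.Agent.TH254.DK
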