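import Pool.Agent.TH254.DK.IsoMain
import Pool.Agent.TH254.DF.GForm

/-!
Matrices over `R[G]` which preserve a positive hermitian matrix over `R[H]`.
-/

set_option autoImplicit false

namespace Pool.Agent.TH254.DK

open Pool.Agent.TH254.DF
open MonoidAlgebra (single)

universe u v

variable {R : Type u} [Ring R] [StarRing R] {G : Type v} [Group G] {n : ℕ}

lemma gform_herm {C : Matrix (Fin n) (Fin n) (MonoidAlgebra R G)} (hC : adjT C = C)
    (x y : Fin n → MonoidAlgebra R G) : gform C y x = adj (gform C x y) := by
  have hC' : ∀ k l, adj (C k l) = C l k := by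
    intro k l
    have := congrFun (congrFun hC l) k
    exact this
  unfold gform
  rw [dotProduct, dotProduct, adj_sum]
  simp only [Matrix.vecMul, dotProduct, adj_mul, adj_sum]
  have h1 : ∀ a : MonoidAlgebra R G, adj (adj a) = a := by
    intro a
    apply MonoidAlgebra.coeff_injective
    ext g
    rw [adj_coeff, adj_coeff, inv_inv, star_star]
  simp only [h1, hC', Finset.sum_mul, Finset.mul_sum]
  rw [Finset.sum_comm]
  refine Finset.sum_congr rfl fun l _ => Finset.sum_congr rfl fun k _ => ?_
  rw [mul_assoc]

lemma gform_isHermitian {C : Matrix (Fin n) (Fin n) (MonoidAlgebra R G)} (hC : adjT C = C) :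
    IsHermitian (gform C) := by
  refine ⟨gform_add_left C, ?_, gform_herm hC⟩
  intro a x y
  unfold gform
  simp only [Matrix.vecMul, dotProduct, Pi.smul_apply, smul_eq_mul, Finset.mul_sum,
    Finset.sum_mul, mul_assoc]

/-- row vectors supported on a coset -/
def cosetN (R : Type u) [Ring R] (H : Subgroup G) (n : ℕ) (q : G ⧸ H) :
    AddSubgroup (Fin n → MonoidAlgebra R G) where
  carrier := {x | ∀ l, SuppOn {g | (QuotientGroup.mk g : G ⧸ H) = q} (x l)}
  add_mem' := fun hx hy l => supp_add (hx l) (hy l)
  zero_mem' := fun _ => supp_zero _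
  neg_mem' := by
    intro x hx l g hg
    change (-(x l)).coeff g = 0
    rw [MonoidAlgebra.coeff_neg, Finsupp.neg_apply, hx l g hg, neg_zero]

lemma coset_frame {C : Matrix (Fin n) (Fin n) (MonoidAlgebra R G)} {H : Subgroup G}
    (hH : EntriesIn (H : Set G) C) :
    IsFrame (gform C) (⊤ : Submodule (MonoidAlgebra R G) (Fin n → MonoidAlgebra R G))
      (cosetN R H n) := by
  classical
  refine ⟨?_, ?_, ?_⟩
  · intro i j hij x hx y hy
    refine gform_disjoint hH (S := {g | (QuotientGroup.mk g : G ⧸ H) = i}) ?_ hx ?_
    · intro s hs k hk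
      change (QuotientGroup.mk (s * k) : G ⧸ H) = i
      rw [QuotientGroup.mk_mul_of_mem s hk]
      exact hs
    · intro l g hg
      refine hy l g ?_
      intro hg'
      apply hg
      change ¬ ((QuotientGroup.mk g : G ⧸ H) = i)
      intro hg''
      exact hij (hg''.symm.trans hg')
  · intro g q x hx l k hk
    change (single g (1 : R) * x l).coeff k = 0
    rw [MonoidAlgebra.coeff_single_mul_apply, one_mul]
    refine hx l _ ?_
    intro hk'
    apply hk
    change (QuotientGroup.mk k : G ⧸ H) = g • q
    rw [← (show (QuotientGroup.mk (g⁻¹ * k) : G ⧸ H) = q from hk')]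
    change _ = (QuotientGroup.mk (g * (g⁻¹ * k)) : G ⧸ H)
    rw [mul_inv_cancel_left]
  · have htop : (⨆ q, cosetN R H n q) = ⊤ := by
      rw [eq_top_iff]
      intro x _
      have h1 : ∀ (l : Fin n) (a : MonoidAlgebra R G),
          (Pi.single l a : Fin n → MonoidAlgebra R G) ∈ ⨆ q, cosetN R H n q := by
        intro l a
        induction a using MonoidAlgebra.induction_linear with
        | zero => rw [Pi.single_zero]; exact AddSubgroup.zero_mem _
        | add a b ha hb => rw [Pi.single_add]; exact AddSubgroup.add_mem _ ha hb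
        | single g r =>
          refine (le_iSup (cosetN R H n) (QuotientGroup.mk g)) ?_
          intro m k hk
          by_cases hm : m = l
          · subst hm
            rw [Pi.single_eq_same, MonoidAlgebra.coeff_single, Finsupp.single_apply, if_neg]
            rintro rfl
            exact hk rfl
          · rw [Pi.single_eq_of_ne hm]
            rfl
      have h2 : x = ∑ l, (Pi.single l (x l) : Fin n → MonoidAlgebra R G) :=
        (Finset.univ_sum_single x).symm
      rw [h2]
      exact AddSubgroup.sum_mem _ fun l _ => h1 l (x l)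
    rw [htop]
    rfl

lemma finite_stabilizer (H : Subgroup G) [Finite H] (q : G ⧸ H) :
    Finite (MulAction.stabilizer G q) := by
  obtain ⟨k, rfl⟩ := QuotientGroup.mk_surjective q
  have h1 : ∀ g : MulAction.stabilizer G (QuotientGroup.mk k : G ⧸ H),
      k⁻¹ * (g : G) * k ∈ H := by
    intro g
    have hg := g.2
    rw [MulAction.mem_stabilizer_iff] at hg
    change (QuotientGroup.mk ((g : G) * k) : G ⧸ H) = QuotientGroup.mk k at hg
    have h2 := QuotientGroup.eq.1 hg.symm
    rw [← mul_assoc] at h2
    exact h2
  refine Finite.of_injective (fun g => (⟨_, h1 g⟩ : H)) ?_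
  intro a b hab
  have h2 := congrArg (fun z : H => (z : G)) hab
  simp only [mul_left_inj, mul_right_inj] at h2
  exact Subtype.ext h2

/-- the isometry `x ↦ x A` -/
noncomputable def rightMul (A B : Matrix (Fin n) (Fin n) (MonoidAlgebra R G)) (hAB : A * B = 1)
    (hBA : B * A = 1) :
    (Fin n → MonoidAlgebra R G) ≃ₗ[MonoidAlgebra R G] (Fin n → MonoidAlgebra R G) where
  toFun x := Matrix.vecMul x A
  map_add' x y := Matrix.add_vecMul A x y
  map_smul' a x := by
    funext l
    simp only [Matrix.vecMul, dotProduct, Pi.smul_apply, smul_eq_mul, Finset.mul_sum, mul_assoc,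
      RingHom.id_apply]
  invFun x := Matrix.vecMul x B
  left_inv x := by
    change Matrix.vecMul (Matrix.vecMul x A) B = x
    rw [Matrix.vecMul_vecMul, hAB, Matrix.vecMul_one]
  right_inv x := by
    change Matrix.vecMul (Matrix.vecMul x B) A = x
    rw [Matrix.vecMul_vecMul, hBA, Matrix.vecMul_one]

/-- **matrices** -/
theorem matrix_induced (φ : R →+ ℤ) {C : Matrix (Fin n) (Fin n) (MonoidAlgebra R G)}
    (hC : adjT C = C) (hpos : GPositive φ C) (H : Subgroup G) [Finite H]
    (hH : EntriesIn (H : Set G) C) (A : (Matrix (Fin n) (Fin n) (MonoidAlgebra R G))ˣ)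
    (hA : A.val * C * adjT A.val = C) :
    ∃ (m : ℕ) (V H' : Fin m → Subgroup G) (L : Fin m → AddSubgroup (Fin n → MonoidAlgebra R G)),
      InducedPair (gform C) (fun x => Matrix.vecMul x A.val) V H' L ∧ ∀ j, Finite (H' j) := by
  obtain ⟨m, V, H', L, h1, h2⟩ := isometry_induced φ (gform_isHermitian hC) hpos
    {K : Subgroup G | Finite K} (coset_frame hH)
    (fun q => ⟨MulAction.stabilizer G q, finite_stabilizer H q, le_rfl⟩)
    (rightMul A.val A.inv A.val_inv A.inv_val) (by
      intro x y
      change gform C (Matrix.vecMul x A.val) (Matrix.vecMul y A.val) = _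
      rw [gform_vecMul, hA])
  refine ⟨m, V, H', L, h1, fun j => ?_⟩
  obtain ⟨K, hK, hle⟩ := h2 j
  have : Finite K := hK
  exact Finite.of_injective (Subgroup.inclusion hle) (Subgroup.inclusion_injective hle)

end Pool.Agent.TH254.DK
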