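import Pool.Agent.TH254.DK.Defs

/-!
Hermitian forms over `R[G]` whose underlying `R`-lattice splits into finitely generated pieces,
and forms which are extended from `R`.
-/

set_option autoImplicit false

namespace Pool.Agent.TH254.DK

universe u v w

variable {R : Type u} [Ring R] [StarRing R] {G : Type w} [Group G]
variable {M : Type v} [AddCommGroup M] [Module (MonoidAlgebra R G) M]

/-- the `R`-submodule of `M` generated by the set `s` (as an additive group) -/
def RSpan (R : Type u) [Ring R] (G : Type w) [Group G] {M : Type v} [AddCommGroup M]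
    [Module (MonoidAlgebra R G) M] (s : Set M) : AddSubgroup M :=
  AddSubgroup.closure {y | ∃ r : R, ∃ x ∈ s, y = MonoidAlgebra.single (1 : G) r • x}

/-- `N` is a finitely generated `R`-submodule of `M` -/
def FGOver (R : Type u) [Ring R] (G : Type w) [Group G] {M : Type v} [AddCommGroup M]
    [Module (MonoidAlgebra R G) M] (N : AddSubgroup M) : Prop :=
  ∃ s : Finset M, N = RSpan R G (s : Set M)

/-- The `R`-module `M` with the form `(x, y) ↦ (lam x y).coeff 1`, without the action of `G`, is
an orthogonal sum of finitely generated `R`-modules. -/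
def LatticeSplits (lam : M → M → MonoidAlgebra R G) : Prop :=
  ∃ (J : Type v) (N : J → AddSubgroup M),
    (∀ i j, i ≠ j → ∀ x ∈ N i, ∀ y ∈ N j, (lam x y).coeff 1 = 0) ∧ ⨆ j, N j = ⊤ ∧
    ∀ j, FGOver R G (N j)

/-- `(M, lam)` is extended from `R`: there is a finitely generated `R`-submodule `E` on which
`lam` has values in `R` and which generates `M` (for positive `lam` it follows that `M` is
`R[G] ⊗ E`). -/
def ExtendedFrom (lam : M → M → MonoidAlgebra R G) : Prop :=
  ∃ E : AddSubgroup M, FGOver R G E ∧
    (∀ x ∈ E, ∀ y ∈ E, ∀ g : G, g ≠ 1 → (lam x y).coeff g = 0) ∧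
    Submodule.span (MonoidAlgebra R G) (E : Set M) = ⊤

end Pool.Agent.TH254.DK
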