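import Pool.Agent.TH254.DK.Unique
import Pool.Agent.TH254.DK.LatDefs

/-!
Finite stabilisers and finitely generated components.
-/

set_option autoImplicit false

namespace Pool.Agent.TH254.DK

open Pool.Agent.TH254.DF
open MonoidAlgebra (single)

universe u v w x

variable {R : Type u} [Ring R] [StarRing R] {G : Type w} [Group G]
variable {M : Type v} [AddCommGroup M] [Module (MonoidAlgebra R G) M]
variable {lam : M → M → MonoidAlgebra R G}

omit [StarRing R] in
lemma rspan_le {s : Set M} {N : AddSubgroup M} (hs : ∀ x ∈ s, x ∈ N)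
    (hN : ∀ (r : R), ∀ x ∈ N, single (1 : G) r • x ∈ N) : RSpan R G s ≤ N := by
  unfold RSpan
  rw [AddSubgroup.closure_le]
  rintro y ⟨r, x, hx, rfl⟩
  exact hN r x (hs x hx)

omit [StarRing R] in
lemma subset_rspan {s : Set M} {x : M} (hx : x ∈ s) : x ∈ RSpan R G s :=
  AddSubgroup.subset_closure ⟨1, x, hx, (single_one_smul (R := R) (G := G) x).symm⟩

omit [StarRing R] in
lemma rspan_stable (s : Set M) (r : R) {x : M} (hx : x ∈ RSpan R G s) :
    single (1 : G) r • x ∈ RSpan R G s := by
  unfold RSpan at hx ⊢
  induction hx using AddSubgroup.closure_induction with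
  | zero => rw [smul_zero]; exact AddSubgroup.zero_mem _
  | add a b _ _ ha hb => rw [smul_add]; exact AddSubgroup.add_mem _ ha hb
  | neg a _ ha => rw [smul_neg]; exact AddSubgroup.neg_mem _ ha
  | mem y hy =>
    obtain ⟨t, x, hx, rfl⟩ := hy
    refine AddSubgroup.subset_closure ⟨r * t, x, hx, ?_⟩
    rw [smul_smul, MonoidAlgebra.single_mul_single, one_mul]

include lam in
/-- **orthogonal sums of finitely generated `R`-modules have finite stabilisers** -/
lemma finite_stab (φ : R →+ ℤ) (h : IsHermitian lam) (hpos : PositiveFor φ lam)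
    {J : Type x} (N : J → AddSubgroup M)
    (ho : ∀ i j, i ≠ j → ∀ x ∈ N i, ∀ y ∈ N j, (lam x y).coeff 1 = 0) (hs : ⨆ j, N j = ⊤)
    (hfg : ∀ j, FGOver R G (N j)) (i : (core1 φ h hpos).I) :
    letI := actI φ h hpos
    Finite (MulAction.stabilizer G i) := by
  classical
  let _ := actI φ h hpos
  have hd : (core1 φ h hpos).Dec N := ⟨ho, fun x => by rw [hs]; exact AddSubgroup.mem_top x⟩
  obtain ⟨f, hf⟩ := (core1 φ h hpos).finest hd
  obtain ⟨x, hx, hx0⟩ : ∃ x ∈ (core1 φ h hpos).P i, x ≠ 0 := by
    by_contra hcon
    push Not at hcon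
    apply (core1 φ h hpos).P_ne_bot i
    rw [eq_bot_iff]
    intro x hx
    rw [AddSubgroup.mem_bot]
    exact hcon x hx
  obtain ⟨s, hsN⟩ := hfg (f i)
  -- every element of the stabiliser is in the support of a value of the form
  have h1 : ((MulAction.stabilizer G i : Subgroup G) : Set G) ⊆
      ⋃ y ∈ s, ((lam y x).coeff.support : Set G) := by
    intro g hg
    by_contra hcon
    simp only [Set.mem_iUnion, not_exists, Finset.mem_coe, Finsupp.mem_support_iff, not_not]
      at hcon
    have hgi : g • i = i := hg
    have h2 := P_smul φ h hpos g i hx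
    have h2' : single g (1 : R) • x ∈ (core1 φ h hpos).P (g • i) := h2
    rw [hgi] at h2'
    have h3 : ∀ y ∈ N (f i), (core1 φ h hpos).b y (single g (1 : R) • x) = 0 := by
      intro y hy
      rw [hsN] at hy
      unfold RSpan at hy
      induction hy using AddSubgroup.closure_induction with
      | zero => rw [map_zero, AddMonoidHom.zero_apply]
      | add a b _ _ ha hb => rw [map_add, AddMonoidHom.add_apply, ha, hb, add_zero]
      | neg a _ ha => rw [map_neg, AddMonoidHom.neg_apply, ha, neg_zero]
      | mem y hy =>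
        obtain ⟨r, y, hy, rfl⟩ := hy
        rw [core1_b, coeff_smul_left_one h, coeff_smul_right h, hcon y hy, zero_mul, mul_zero]
    exact single_smul_ne g hx0 ((core1 φ h hpos).eq_zero_of_self (h3 _ (hf i h2')))
  have h4 : ((MulAction.stabilizer G i : Subgroup G) : Set G).Finite :=
    (Set.Finite.biUnion s.finite_toSet fun y _ => Finset.finite_toSet _).subset h1
  exact h4.to_subtype

/-- decompositions of vectors into components -/
lemma exists_comp {B : Type*} [AddCommGroup B] (c : Core M B) (x : M) :
    ∃ (K : Finset c.I) (u : c.I → M), (∀ k, u k ∈ c.P k) ∧ x = ∑ k ∈ K, u k := by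
  classical
  have hx := c.P_sup x
  induction hx using AddSubgroup.iSup_induction' with
  | hp i x hx =>
    refine ⟨{i}, fun k => if k = i then x else 0, ?_, by simp⟩
    intro k
    by_cases hk : k = i
    · subst hk; simpa using hx
    · simp [hk]
  | h1 => exact ⟨∅, fun _ => 0, fun _ => AddSubgroup.zero_mem _, by simp⟩
  | hadd x y _ _ hx hy =>
    obtain ⟨K1, u1, h1, h1'⟩ := hx
    obtain ⟨K2, u2, h2, h2'⟩ := hy
    refine ⟨K1 ∪ K2, fun k => (if k ∈ K1 then u1 k else 0) + (if k ∈ K2 then u2 k else 0), ?_, ?_⟩
    · intro k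
      refine AddSubgroup.add_mem _ ?_ ?_
      · split_ifs
        · exact h1 k
        · exact AddSubgroup.zero_mem _
      · split_ifs
        · exact h2 k
        · exact AddSubgroup.zero_mem _
    · rw [Finset.sum_add_distrib, Finset.sum_ite_mem, Finset.sum_ite_mem, h1', h2',
        Finset.union_inter_cancel_left, Finset.union_inter_cancel_right]

/-- **components with finite stabilisers are finitely generated over `R`** -/
lemma fg_of_finite_stab (φ : R →+ ℤ) (h : IsHermitian lam) (hpos : PositiveFor φ lam)
    [Module.Finite (MonoidAlgebra R G) M]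
    (hst : letI := actI φ h hpos
      ∀ i : (core1 φ h hpos).I, Finite (MulAction.stabilizer G i)) (i : (core1 φ h hpos).I) :
    FGOver R G ((core1 φ h hpos).P i) := by
  classical
  let _ := actI φ h hpos
  have hfr : IsFrame lam (⊤ : Submodule (MonoidAlgebra R G) M) (core1 φ h hpos).P :=
    isFrame_P φ h hpos
  obtain ⟨S, hS⟩ := (Module.Finite.fg_top : (⊤ : Submodule (MonoidAlgebra R G) M).FG)
  choose K u hu1 hu2 using exists_comp (core1 φ h hpos)
  -- generators of the component `j`
  let W : (core1 φ h hpos).I → Set M := fun j =>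
    {y | ∃ x ∈ S, ∃ k ∈ K x, ∃ g : G, g • k = j ∧ y = single g (1 : R) • u x k}
  have hW : ∀ j, (W j).Finite := by
    intro j
    have h1 : W j ⊆ ⋃ x ∈ S, ⋃ k ∈ K x, (fun g : G => single g (1 : R) • u x k) ''
        {g : G | g • k = j} := by
      rintro y ⟨x, hx, k, hk, g, hg, rfl⟩
      exact Set.mem_biUnion hx (Set.mem_biUnion hk ⟨g, hg, rfl⟩)
    refine Set.Finite.subset ?_ h1
    refine Set.Finite.biUnion S.finite_toSet fun x _ => ?_
    refine Set.Finite.biUnion (K x).finite_toSet fun k _ => ?_
    refine Set.Finite.image _ ?_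
    by_cases he : ∃ g₀ : G, g₀ • k = j
    · obtain ⟨g₀, hg₀⟩ := he
      have hfin := hst k
      have h2 : {g : G | g • k = j} ⊆
          (fun t : G => g₀ * t) '' ((MulAction.stabilizer G k : Subgroup G) : Set G) := by
        intro g hg
        refine ⟨g₀⁻¹ * g, ?_, by group⟩
        change (g₀⁻¹ * g) • k = k
        rw [mul_smul, (show g • k = j from hg), ← hg₀, inv_smul_smul]
      exact ((Set.toFinite _).image _).subset h2
    · convert Set.finite_empty
      rw [Set.eq_empty_iff_forall_notMem]
      intro g hg
      exact he ⟨g, hg⟩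
  let D : (core1 φ h hpos).I → AddSubgroup M := fun j => RSpan R G (W j)
  have hDP : ∀ j, D j ≤ (core1 φ h hpos).P j := by
    intro j
    refine rspan_le ?_ (fun r x hx => frame_stable φ h hpos hfr r j hx)
    rintro y ⟨x, _, k, _, g, hg, rfl⟩
    have := hfr.smul g k _ (hu1 x k)
    rw [hg] at this
    exact this
  have hDg : ∀ (g : G) (j) (y : M), y ∈ D j → single g (1 : R) • y ∈ D (g • j) := by
    intro g j y hy
    change y ∈ RSpan R G (W j) at hy
    unfold RSpan at hy
    induction hy using AddSubgroup.closure_induction with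
    | zero => rw [smul_zero]; exact AddSubgroup.zero_mem _
    | add a b _ _ ha hb => rw [smul_add]; exact AddSubgroup.add_mem _ ha hb
    | neg a _ ha => rw [smul_neg]; exact AddSubgroup.neg_mem _ ha
    | mem y hy =>
      obtain ⟨r, y, ⟨x, hx, k, hk, t, ht, rfl⟩, rfl⟩ := hy
      have h1 : single g (1 : R) • single (1 : G) r • single t (1 : R) • u x k =
          single (1 : G) r • single (g * t) (1 : R) • u x k := by
        simp only [smul_smul, MonoidAlgebra.single_mul_single, mul_one, one_mul]
      rw [h1]
      refine rspan_stable _ r (subset_rspan ⟨x, hx, k, hk, g * t, ?_, rfl⟩)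
      rw [mul_smul, ht]
  have hDtop : ∀ y : M, y ∈ ⨆ j, D j := by
    have hstab : ∀ (a : MonoidAlgebra R G) (y : M), y ∈ (⨆ j, D j) → a • y ∈ ⨆ j, D j := by
      intro a y hy
      induction a using MonoidAlgebra.induction_linear with
      | zero => rw [zero_smul]; exact AddSubgroup.zero_mem _
      | add a b ha hb => rw [add_smul]; exact AddSubgroup.add_mem _ ha hb
      | single g r =>
        induction hy using AddSubgroup.iSup_induction' with
        | h1 => rw [smul_zero]; exact AddSubgroup.zero_mem _
        | hadd a b _ _ ha hb => rw [smul_add]; exact AddSubgroup.add_mem _ ha hb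
        | hp j y hy =>
          have h1 : single g r • y = single (1 : G) r • single g (1 : R) • y := by
            rw [smul_smul, MonoidAlgebra.single_mul_single, mul_one, one_mul]
          rw [h1]
          exact (le_iSup D (g • j)) (rspan_stable _ r (hDg g j y hy))
    intro y
    have hy : y ∈ Submodule.span (MonoidAlgebra R G) (S : Set M) := by
      rw [hS]; exact Submodule.mem_top
    induction hy using Submodule.span_induction with
    | zero => exact AddSubgroup.zero_mem _
    | add a b _ _ ha hb => exact AddSubgroup.add_mem _ ha hb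
    | smul a y _ hy => exact hstab a y hy
    | mem y hy =>
      rw [hu2 y]
      refine AddSubgroup.sum_mem _ fun k hk => ?_
      refine (le_iSup D k) (subset_rspan ⟨y, hy, k, hk, 1, one_smul G k, ?_⟩)
      exact (single_one_smul (R := R) (G := G) _).symm
  refine ⟨(hW i).toFinset, ?_⟩
  rw [Set.Finite.coe_toFinset]
  refine le_antisymm ?_ (hDP i)
  intro x hx
  have h1 : (⨆ j, D j) ≤ D i ⊔ ⨆ j : {j // j ≠ i}, (core1 φ h hpos).P j := by
    refine iSup_le fun j => ?_
    by_cases hj : j = i
    · rw [hj]; exact le_sup_left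
    · exact (hDP j).trans ((le_iSup (fun j : {j // j ≠ i} => (core1 φ h hpos).P j)
        ⟨j, hj⟩).trans le_sup_right)
  obtain ⟨d, hd, e, he, hde⟩ := AddSubgroup.mem_sup.1 (h1 (hDtop x))
  have he1 : e ∈ (core1 φ h hpos).P i := by
    have : e = x - d := by rw [← hde]; abel
    rw [this]
    exact AddSubgroup.sub_mem _ hx (hDP i hd)
  have he0 : e = 0 :=
    (core1 φ h hpos).eq_zero_of_self ((core1 φ h hpos).dec_P.orth_sup i he1 he)
  rw [← hde, he0, add_zero]
  exact hd

include lam in
/-- **the lattice criterion** -/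
theorem lattice_iff (φ : R →+ ℤ) (h : IsHermitian lam) (hpos : PositiveFor φ lam)
    [Module.Finite (MonoidAlgebra R G) M] :
    InducedOver {K : Subgroup G | Finite K} lam ⊤ ↔ LatticeSplits lam := by
  let _ := actI φ h hpos
  constructor
  · rintro ⟨J1, a1, N1, hN1, hs1⟩
    obtain ⟨f1, hf1, _⟩ := finest_equivariant φ h hpos hN1
    have hst : ∀ i : (core1 φ h hpos).I, Finite (MulAction.stabilizer G i) := by
      intro i
      obtain ⟨K1, hK1, hi1⟩ := hs1 (f1 i)
      have : Finite K1 := hK1
      have hle := (stabilizer_le_of_map f1 hf1 i).trans hi1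
      exact Finite.of_injective (Subgroup.inclusion hle) (Subgroup.inclusion_injective hle)
    refine ⟨(core1 φ h hpos).I, (core1 φ h hpos).P,
      fun i j hij x hx y hy => (core1 φ h hpos).P_orth hij hx hy, ?_,
      fun i => fg_of_finite_stab φ h hpos hst i⟩
    rw [eq_top_iff]
    exact fun x _ => (core1 φ h hpos).P_sup x
  · rintro ⟨J, N, ho, hs, hfg⟩
    refine ⟨(core1 φ h hpos).I, actI φ h hpos, (core1 φ h hpos).P, isFrame_P φ h hpos, ?_⟩
    intro i
    exact ⟨MulAction.stabilizer G i, finite_stab φ h hpos N ho hs hfg i, le_rfl⟩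

/-- forms extended from `R` split as lattices -/
theorem splits_of_extended (φ : R →+ ℤ) (h : IsHermitian lam) (hpos : PositiveFor φ lam)
    [Module.Finite (MonoidAlgebra R G) M] (hE : ExtendedFrom lam) : LatticeSplits lam := by
  classical
  obtain ⟨E, ⟨s, hs⟩, h1, h2⟩ := hE
  let N : G → AddSubgroup M := fun g =>
    E.map (DistribSMul.toAddMonoidHom M (single g (1 : R)))
  have hmem : ∀ g x, x ∈ N g ↔ ∃ a ∈ E, single g (1 : R) • a = x := fun g x => Iff.rfl
  have hEr : ∀ (r : R), ∀ x ∈ E, single (1 : G) r • x ∈ E := by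
    intro r x hx
    rw [hs] at hx ⊢
    exact rspan_stable _ r hx
  rw [← lattice_iff φ h hpos]
  let _ := actI φ h hpos
  refine ⟨(core1 φ h hpos).I, actI φ h hpos, (core1 φ h hpos).P, isFrame_P φ h hpos, ?_⟩
  intro i
  refine ⟨MulAction.stabilizer G i, finite_stab φ h hpos N ?_ ?_ ?_ i, le_rfl⟩
  · intro g k hgk x hx y hy
    obtain ⟨a, ha, rfl⟩ := (hmem g x).1 hx
    obtain ⟨b, hb, rfl⟩ := (hmem k y).1 hy
    rw [coeff_smul_right h, h.smul_left, MonoidAlgebra.coeff_single_mul_apply, one_mul,
      h1 a ha b hb, zero_mul]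
    intro hh
    exact hgk (inv_mul_eq_one.1 hh)
  · rw [eq_top_iff]
    intro x _
    have hx : x ∈ Submodule.span (MonoidAlgebra R G) (E : Set M) := by
      rw [h2]; exact Submodule.mem_top
    have hstab : ∀ (a : MonoidAlgebra R G) (y : M), y ∈ (⨆ g, N g) → a • y ∈ ⨆ g, N g := by
      intro a y hy
      induction a using MonoidAlgebra.induction_linear with
      | zero => rw [zero_smul]; exact AddSubgroup.zero_mem _
      | add a b ha hb => rw [add_smul]; exact AddSubgroup.add_mem _ ha hb
      | single g r =>
        induction hy using AddSubgroup.iSup_induction' with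
        | h1 => rw [smul_zero]; exact AddSubgroup.zero_mem _
        | hadd a b _ _ ha hb => rw [smul_add]; exact AddSubgroup.add_mem _ ha hb
        | hp k y hy =>
          obtain ⟨b, hb, rfl⟩ := (hmem k y).1 hy
          refine (le_iSup N (g * k)) ((hmem _ _).2 ⟨_, hEr r b hb, ?_⟩)
          simp only [smul_smul, MonoidAlgebra.single_mul_single, mul_one, one_mul]
    induction hx using Submodule.span_induction with
    | zero => exact AddSubgroup.zero_mem _
    | add a b _ _ ha hb => exact AddSubgroup.add_mem _ (ha trivial) (hb trivial)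
    | smul a y _ hy => exact hstab a y (hy trivial)
    | mem y hy =>
      refine (le_iSup N 1) ((hmem 1 y).2 ⟨y, hy, single_one_smul y⟩)
  · intro g
    refine ⟨s.image (fun x => single g (1 : R) • x), ?_⟩
    refine le_antisymm ?_ ?_
    · intro x hx
      obtain ⟨a, ha, rfl⟩ := (hmem g x).1 hx
      clear hx
      rw [hs] at ha
      unfold RSpan at ha
      induction ha using AddSubgroup.closure_induction with
      | zero => rw [smul_zero]; exact AddSubgroup.zero_mem _
      | add a b _ _ ha hb => rw [smul_add]; exact AddSubgroup.add_mem _ ha hb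
      | neg a _ ha => rw [smul_neg]; exact AddSubgroup.neg_mem _ ha
      | mem y hy =>
        obtain ⟨r, y, hy, rfl⟩ := hy
        have h3 : single g (1 : R) • single (1 : G) r • y =
            single (1 : G) r • single g (1 : R) • y := by
          simp only [smul_smul, MonoidAlgebra.single_mul_single, mul_one, one_mul]
        rw [h3]
        exact rspan_stable _ r (subset_rspan (by
          rw [Finset.coe_image]; exact ⟨y, hy, rfl⟩))
    · refine rspan_le ?_ ?_
      · intro y hy
        rw [Finset.coe_image] at hy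
        obtain ⟨x, hx, rfl⟩ := hy
        refine (hmem _ _).2 ⟨x, ?_, rfl⟩
        rw [hs]
        exact subset_rspan hx
      · intro r x hx
        obtain ⟨a, ha, rfl⟩ := (hmem g x).1 hx
        refine (hmem _ _).2 ⟨_, hEr r a ha, ?_⟩
        simp only [smul_smul, MonoidAlgebra.single_mul_single, mul_one, one_mul]

/-- **torsion-free groups** -/
theorem extended_of_splits (φ : R →+ ℤ) (h : IsHermitian lam) (hpos : PositiveFor φ lam)
    [Module.Finite (MonoidAlgebra R G) M] (hG : ∀ (g : G) (n : ℕ), 0 < n → g ^ n = 1 → g = 1)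
    (hE : LatticeSplits lam) : ExtendedFrom lam := by
  classical
  obtain ⟨J, N, ho, hs, hfg⟩ := hE
  let _ := actI φ h hpos
  have hfr : IsFrame lam (⊤ : Submodule (MonoidAlgebra R G) M) (core1 φ h hpos).P :=
    isFrame_P φ h hpos
  have hst : ∀ i : (core1 φ h hpos).I, Finite (MulAction.stabilizer G i) :=
    fun i => finite_stab φ h hpos N ho hs hfg i
  have htriv : ∀ (i : (core1 φ h hpos).I) (g : G), g • i = i → g = 1 := by
    intro i g hg
    have := hst i
    have hg' : g ∈ MulAction.stabilizer G i := hg
    have h1 := isOfFinOrder_of_finite (⟨g, hg'⟩ : MulAction.stabilizer G i)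
    obtain ⟨n, hn, hn'⟩ := isOfFinOrder_iff_pow_eq_one.1 h1
    exact hG g n hn (congrArg (fun z : MulAction.stabilizer G i => (z : G)) hn')
  obtain ⟨T, hT⟩ := finite_orbits φ h hpos
  have hQ : Finite (MulAction.orbitRel.Quotient G (core1 φ h hpos).I) := by
    refine Finite.of_surjective (fun t : T => (Quotient.mk (MulAction.orbitRel G _)
      (t : (core1 φ h hpos).I) : MulAction.orbitRel.Quotient G (core1 φ h hpos).I)) ?_
    intro q
    obtain ⟨i, rfl⟩ := Quotient.exists_rep q
    obtain ⟨t, ht, g, hg⟩ := hT i
    refine ⟨⟨t, ht⟩, Quotient.sound ?_⟩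
    refine MulAction.orbitRel_apply.2 ⟨g⁻¹, ?_⟩
    rw [hg]
    exact inv_smul_smul g t
  obtain ⟨m, ⟨e⟩⟩ := Finite.exists_equiv_fin (MulAction.orbitRel.Quotient G (core1 φ h hpos).I)
  let r : Fin m → (core1 φ h hpos).I := fun j => (e.symm j).out
  have hr : ∀ i, ∃ (j : Fin m) (g : G), i = g • r j := by
    intro i
    refine ⟨e (Quotient.mk (MulAction.orbitRel G _) i), ?_⟩
    have h1 : Quotient.mk (MulAction.orbitRel G _) i = Quotient.mk (MulAction.orbitRel G _)
        (r (e (Quotient.mk (MulAction.orbitRel G _) i))) := by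
      simp only [r]
      rw [Quotient.out_eq, Equiv.symm_apply_apply]
    obtain ⟨g, hg⟩ := Quotient.exact h1
    exact ⟨g, hg.symm⟩
  have hr2 : ∀ (j k : Fin m) (g : G), g • r k = r j → j = k := by
    intro j k g hjk
    have h1 : Quotient.mk (MulAction.orbitRel G _) (r j) =
        Quotient.mk (MulAction.orbitRel G _) (r k) := by
      exact Quotient.sound (MulAction.orbitRel_apply.2 ⟨g, hjk⟩)
    simp only [r] at h1
    rw [Quotient.out_eq, Quotient.out_eq] at h1
    exact e.symm.injective h1
  let E : AddSubgroup M := ⨆ j : Fin m, (core1 φ h hpos).P (r j)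
  refine ⟨E, ?_, ?_, ?_⟩
  · have h1 : ∀ j : Fin m, FGOver R G ((core1 φ h hpos).P (r j)) :=
      fun j => fg_of_finite_stab φ h hpos hst (r j)
    choose s hs' using h1
    refine ⟨Finset.univ.biUnion s, le_antisymm (iSup_le fun j => ?_) ?_⟩
    · rw [hs' j]
      refine rspan_le ?_ (fun t x hx => rspan_stable _ t hx)
      intro x hx
      refine subset_rspan ?_
      rw [Finset.mem_coe, Finset.mem_biUnion]
      exact ⟨j, Finset.mem_univ j, hx⟩
    · refine rspan_le ?_ ?_
      · intro x hx
        rw [Finset.mem_coe, Finset.mem_biUnion] at hx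
        obtain ⟨j, _, hx⟩ := hx
        refine (le_iSup (fun j : Fin m => (core1 φ h hpos).P (r j)) j) ?_
        rw [hs' j]
        exact subset_rspan hx
      · intro t x hx
        induction hx using AddSubgroup.iSup_induction' with
        | h1 => rw [smul_zero]; exact AddSubgroup.zero_mem _
        | hadd a b _ _ ha hb => rw [smul_add]; exact AddSubgroup.add_mem _ ha hb
        | hp j x hx =>
          exact (le_iSup (fun j : Fin m => (core1 φ h hpos).P (r j)) j)
            (frame_stable φ h hpos hfr t _ hx)
  · intro x hx y hy g hg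
    have hb : ∀ a b : M, (lam a b).coeff g = (core1 φ h hpos).b a (single g (1 : R) • b) := by
      intro a b
      rw [core1_b, coeff_smul_right h, star_one, mul_one]
    rw [hb]
    induction hx using AddSubgroup.iSup_induction' with
    | h1 => rw [map_zero, AddMonoidHom.zero_apply]
    | hadd a b _ _ ha hb => rw [map_add, AddMonoidHom.add_apply, ha, hb, add_zero]
    | hp j x hx =>
      induction hy using AddSubgroup.iSup_induction' with
      | h1 => rw [smul_zero]; exact map_zero _
      | hadd a b _ _ ha hb => rw [smul_add, map_add, ha, hb, add_zero]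
      | hp k y hy =>
        refine hfr.orth _ _ ?_ x hx _ (hfr.smul g _ y hy)
        intro hjk
        have h3 := hr2 j k g hjk.symm
        subst h3
        exact hg (htriv _ g hjk.symm)
  · rw [eq_top_iff]
    intro x _
    have hx := (core1 φ h hpos).P_sup x
    induction hx using AddSubgroup.iSup_induction' with
    | h1 => exact Submodule.zero_mem _
    | hadd a b _ _ ha hb => exact Submodule.add_mem _ (ha trivial) (hb trivial)
    | hp i x hx =>
      obtain ⟨j, g, hi⟩ := hr i
      have h1 := hfr.smul g⁻¹ i x hx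
      rw [hi, inv_smul_smul] at h1
      have h2 : x = single g (1 : R) • (single g⁻¹ (1 : R) • x) := by
        rw [single_smul_smul, mul_inv_cancel, single_one_smul]
      rw [h2]
      refine Submodule.smul_mem _ _ (Submodule.subset_span ?_)
      exact (le_iSup (fun j : Fin m => (core1 φ h hpos).P (r j)) j) h1

end Pool.Agent.TH254.DK
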