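import Pool.Agent.TH254.DK.Frames

/-!
Uniqueness of frames with indecomposable members, and cancellation.
-/

set_option autoImplicit false

namespace Pool.Agent.TH254.DK

open Pool.Agent.TH254.DF
open MonoidAlgebra (single)

universe u v w x y z

section Abstract

variable {M : Type v} {B : Type u} [AddCommGroup M] [AddCommGroup B] (c : Core M B)

/-- decompositions with indecomposable members are equal to the finest one -/
lemma Core.finest_of_indec {J : Type w} {N : J → AddSubgroup M} (hd : c.Dec N)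
    (hne : ∀ j, N j ≠ ⊥)
    (hind : ∀ j, ∀ U V : AddSubgroup M, (∀ x ∈ U, ∀ y ∈ V, c.b x y = 0) → U ⊔ V = N j →
      U = ⊥ ∨ V = ⊥) (f : c.I → J) (hf : ∀ i, c.P i ≤ N (f i)) :
    Function.Bijective f ∧ ∀ i, c.P i = N (f i) := by
  have hsurj : Function.Surjective f := by
    intro j
    by_contra hcon
    push Not at hcon
    apply hne j
    rw [eq_bot_iff]
    intro x hx
    rw [AddSubgroup.mem_bot]
    refine c.dec_P.eq_zero fun i y hy => ?_
    exact hd.orth j (f i) (Ne.symm (hcon i)) x hx y (hf i hy)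
  have key : ∀ i, (⨆ k : {k // k ≠ i ∧ f k = f i}, c.P (k : c.I)) = ⊥ ∧ c.P i = N (f i) := by
    intro i
    have h1 : c.P i ⊔ (⨆ k : {k // k ≠ i ∧ f k = f i}, c.P (k : c.I)) = N (f i) := by
      refine le_antisymm (sup_le (hf i) (iSup_le fun k => ?_)) ?_
      · have := hf (k : c.I)
        rw [k.2.2] at this
        exact this
      · intro x hx
        have h2 : (⨆ k, c.P k) ≤ (c.P i ⊔ (⨆ k : {k // k ≠ i ∧ f k = f i}, c.P (k : c.I))) ⊔
            (⨆ k : {k // f k ≠ f i}, c.P (k : c.I)) := by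
          refine iSup_le fun k => ?_
          by_cases hk : f k = f i
          · by_cases hki : k = i
            · rw [hki]; exact le_sup_left.trans le_sup_left
            · exact ((le_iSup (fun k : {k // k ≠ i ∧ f k = f i} => c.P (k : c.I))
                ⟨k, hki, hk⟩).trans le_sup_right).trans le_sup_left
          · exact (le_iSup (fun k : {k // f k ≠ f i} => c.P (k : c.I)) ⟨k, hk⟩).trans
              le_sup_right
        obtain ⟨a, ha, b, hb, hab⟩ := AddSubgroup.mem_sup.1 (h2 (c.P_sup x))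
        have ha' : a ∈ N (f i) := by
          refine (sup_le (hf i) (iSup_le fun k => ?_) :
            c.P i ⊔ (⨆ k : {k // k ≠ i ∧ f k = f i}, c.P (k : c.I)) ≤ N (f i)) ha
          have := hf (k : c.I)
          rw [k.2.2] at this
          exact this
        have hb1 : b ∈ N (f i) := by
          have : b = x - a := by rw [← hab]; abel
          rw [this]
          exact AddSubgroup.sub_mem _ hx ha'
        have hb2 : b ∈ ⨆ k : {k // k ≠ f i}, N k := by
          refine (iSup_le fun k => ?_ : (⨆ k : {k // f k ≠ f i}, c.P (k : c.I)) ≤ _) hb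
          exact (hf (k : c.I)).trans (le_iSup (fun k : {k // k ≠ f i} => N k) ⟨f k, k.2⟩)
        have hb0 : b = 0 := c.eq_zero_of_self (hd.orth_sup (f i) hb1 hb2)
        rw [← hab, hb0, add_zero]
        exact ha
    have h3 : (⨆ k : {k // k ≠ i ∧ f k = f i}, c.P (k : c.I)) = ⊥ := by
      have ho : ∀ x ∈ c.P i, ∀ y ∈ (⨆ k : {k // k ≠ i ∧ f k = f i}, c.P (k : c.I)),
          c.b x y = 0 := by
        intro x hx y hy
        refine c.dec_P.orth_sup i hx ?_
        refine (iSup_le fun k => ?_ :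
          (⨆ k : {k // k ≠ i ∧ f k = f i}, c.P (k : c.I)) ≤ _) hy
        exact le_iSup (fun k : {k // k ≠ i} => c.P k) ⟨(k : c.I), k.2.1⟩
      rcases hind (f i) _ _ ho h1 with h4 | h4
      · exact absurd h4 (c.P_ne_bot i)
      · exact h4
    rw [h3, sup_bot_eq] at h1
    exact ⟨h3, h1⟩
  refine ⟨⟨?_, hsurj⟩, fun i => (key i).2⟩
  intro i k hik
  by_contra hne'
  apply c.P_ne_bot i
  rw [eq_bot_iff, ← (key k).1]
  exact le_iSup (fun l : {l // l ≠ k ∧ f l = f k} => c.P (l : c.I)) ⟨i, hne', hik⟩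

end Abstract

section Unique

variable {R : Type u} [Ring R] [StarRing R] {G : Type w} [Group G]
variable {M : Type v} [AddCommGroup M] [Module (MonoidAlgebra R G) M]
variable {lam : M → M → MonoidAlgebra R G}
variable (φ : R →+ ℤ) (h : IsHermitian lam) (hpos : PositiveFor φ lam)

lemma bij_of_indec {J : Type x} [MulAction G J] {N : J → AddSubgroup M}
    (hN : IsFrame lam (⊤ : Submodule (MonoidAlgebra R G) M) N) (hI : Indecomposable lam N) :
    letI := actI φ h hpos
    ∃ f : (core1 φ h hpos).I ≃ J, (∀ (g : G) i, f (g • i) = g • f i) ∧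
      ∀ i, (core1 φ h hpos).P i = N (f i) := by
  let _ := actI φ h hpos
  obtain ⟨f, hf1, hf2⟩ := finest_equivariant φ h hpos hN
  obtain ⟨hb, he⟩ := (core1 φ h hpos).finest_of_indec (hN.dec φ h hpos) (fun j => (hI j).1)
    (fun j => (hI j).2) f hf2
  exact ⟨Equiv.ofBijective f hb, hf1, he⟩

include φ h hpos in
/-- **isometries preserve frames with indecomposable members** -/
theorem isometry_frames {M' : Type y} [AddCommGroup M'] [Module (MonoidAlgebra R G) M']
    {lam' : M' → M' → MonoidAlgebra R G}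
    (β : M ≃ₗ[MonoidAlgebra R G] M') (hβ : ∀ x y, lam' (β x) (β y) = lam x y)
    {I : Type x} [MulAction G I] {N : I → AddSubgroup M}
    (hN : IsFrame lam (⊤ : Submodule (MonoidAlgebra R G) M) N) (hI : Indecomposable lam N)
    {J : Type z} [MulAction G J] {N' : J → AddSubgroup M'}
    (hN' : IsFrame lam' (⊤ : Submodule (MonoidAlgebra R G) M') N')
    (hI' : Indecomposable lam' N') :
    ∃ f : I ≃ J, (∀ (g : G) i, f (g • i) = g • f i) ∧ ∀ i x, x ∈ N i ↔ β x ∈ N' (f i) := by
  let _ := actI φ h hpos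
  let N'' : J → AddSubgroup M := fun j => (N' j).map (β.symm : M' →+ M)
  have hmem : ∀ j x, x ∈ N'' j ↔ β x ∈ N' j := by
    intro j x
    constructor
    · rintro ⟨y, hy, rfl⟩
      change β (β.symm y) ∈ N' j
      rw [LinearEquiv.apply_symm_apply]
      exact hy
    · intro hx
      exact ⟨β x, hx, β.symm_apply_apply x⟩
  have hN'' : IsFrame lam (⊤ : Submodule (MonoidAlgebra R G) M) N'' := by
    refine ⟨?_, ?_, ?_⟩
    · intro i j hij x hx y hy
      rw [← hβ]
      exact hN'.orth i j hij _ ((hmem i x).1 hx) _ ((hmem j y).1 hy)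
    · intro g i x hx
      rw [hmem, map_smul]
      exact hN'.smul g i _ ((hmem i x).1 hx)
    · have htop : (⨆ j, N'' j) = ⊤ := by
        rw [eq_top_iff]
        intro x _
        have h1 : β x ∈ ⨆ j, N' j := by
          rw [hN'.sup]
          exact (Submodule.mem_top : β x ∈ (⊤ : Submodule (MonoidAlgebra R G) M'))
        have h2 : ∀ z, z ∈ ⨆ j, N' j → β.symm z ∈ ⨆ j, N'' j := by
          intro z hz
          induction hz using AddSubgroup.iSup_induction' with
          | hp j z hz => exact (le_iSup N'' j) ⟨z, hz, rfl⟩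
          | h1 => rw [map_zero]; exact AddSubgroup.zero_mem _
          | hadd a b _ _ ha hb => rw [map_add]; exact AddSubgroup.add_mem _ ha hb
        have h3 := h2 _ h1
        rw [LinearEquiv.symm_apply_apply] at h3
        exact h3
      rw [htop]
      rfl
  have hI'' : Indecomposable lam N'' := by
    intro j
    refine ⟨fun h0 => (hI' j).1 ?_, ?_⟩
    · rw [eq_bot_iff]
      intro y hy
      have h1 : β.symm y ∈ N'' j := ⟨y, hy, rfl⟩
      rw [h0, AddSubgroup.mem_bot] at h1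
      rw [AddSubgroup.mem_bot]
      have := congrArg β h1
      rwa [LinearEquiv.apply_symm_apply, map_zero] at this
    · intro U V ho hs
      have h1 := (hI' j).2 (U.map (β : M →+ M')) (V.map (β : M →+ M')) (by
        rintro _ ⟨x, hx, rfl⟩ _ ⟨y, hy, rfl⟩
        change (lam' (β x) (β y)).coeff 1 = 0
        rw [hβ]
        exact ho x hx y hy) (by
        rw [← AddSubgroup.map_sup, hs]
        ext y
        constructor
        · rintro ⟨x, hx, rfl⟩
          exact (hmem j x).1 hx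
        · intro hy
          refine ⟨β.symm y, ?_, β.apply_symm_apply y⟩
          exact ⟨y, hy, rfl⟩)
      have hmap : ∀ W : AddSubgroup M, W.map (β : M →+ M') = ⊥ → W = ⊥ := by
        intro W hW
        rw [eq_bot_iff]
        intro x hx
        rw [AddSubgroup.mem_bot]
        have h2 : β x ∈ W.map (β : M →+ M') := ⟨x, hx, rfl⟩
        rw [hW, AddSubgroup.mem_bot] at h2
        exact (LinearEquiv.map_eq_zero_iff β).1 h2
      rcases h1 with h1 | h1
      · left; exact hmap U h1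
      · right; exact hmap V h1
  obtain ⟨f1, hf1, he1⟩ := bij_of_indec φ h hpos hN hI
  obtain ⟨f2, hf2, he2⟩ := bij_of_indec φ h hpos hN'' hI''
  refine ⟨f1.symm.trans f2, ?_, ?_⟩
  · intro g i
    obtain ⟨k, rfl⟩ := f1.surjective i
    rw [← hf1, Equiv.trans_apply, Equiv.trans_apply, Equiv.symm_apply_apply,
      Equiv.symm_apply_apply, hf2]
  · intro i x
    obtain ⟨k, rfl⟩ := f1.surjective i
    rw [Equiv.trans_apply, Equiv.symm_apply_apply, ← hmem, ← he1, ← he2]

end Unique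

section Cancel

variable {R : Type u} [Ring R] [StarRing R] {G : Type w} [Group G] (φ : R →+ ℤ)
variable {M : Type v} [AddCommGroup M] [Module (MonoidAlgebra R G) M]
variable {lam : M → M → MonoidAlgebra R G}

/-- **the Witt theorem for forms over group rings** -/
theorem witt_group (h : IsHermitian lam) (hpos : PositiveFor φ lam)
    [Module.Finite (MonoidAlgebra R G) M]
    (P Q P' Q' : Submodule (MonoidAlgebra R G) M) (h1 : Splits lam P Q) (h2 : Splits lam P' Q')
    (α : Q ≃ₗ[MonoidAlgebra R G] Q') (hα : ∀ x y : Q, lam (α x : M) (α y : M) = lam (x : M) y) :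
    ∃ β : M ≃ₗ[MonoidAlgebra R G] M, (∀ x y, lam (β x) (β y) = lam x y) ∧
      ∀ x : Q, β x = α x := by
  have hfin := (coreG φ h hpos).finite_I (A := MonoidAlgebra R G) (coreG_smul φ h hpos)
  exact (coreG φ h hpos).witt (A := MonoidAlgebra R G) (coreG_smul φ h hpos)
    ⟨h1.orth, h1.sup⟩ ⟨h2.orth, h2.sup⟩ α hα

/-- **cancellation** -/
theorem cancel {M₁ : Type v} {M₂ : Type y} {Q : Type x} [AddCommGroup M₁] [AddCommGroup M₂]
    [AddCommGroup Q] [Module (MonoidAlgebra R G) M₁] [Module (MonoidAlgebra R G) M₂]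
    [Module (MonoidAlgebra R G) Q] [Module.Finite (MonoidAlgebra R G) M₁]
    [Module.Finite (MonoidAlgebra R G) Q]
    {lam₁ : M₁ → M₁ → MonoidAlgebra R G} {lam₂ : M₂ → M₂ → MonoidAlgebra R G}
    {κ : Q → Q → MonoidAlgebra R G} (h₁ : IsHermitian lam₁) (h₂ : IsHermitian lam₂)
    (hκ : IsHermitian κ) (p₁ : PositiveFor φ lam₁) (pκ : PositiveFor φ κ)
    (E : (M₁ × Q) ≃ₗ[MonoidAlgebra R G] (M₂ × Q))
    (hE : ∀ a b, lam₂ (E a).1 (E b).1 + κ (E a).2 (E b).2 = lam₁ a.1 b.1 + κ a.2 b.2) :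
    ∃ E' : M₁ ≃ₗ[MonoidAlgebra R G] M₂, ∀ x y, lam₂ (E' x) (E' y) = lam₁ x y := by
  let lamT : M₁ × Q → M₁ × Q → MonoidAlgebra R G := fun a b => lam₁ a.1 b.1 + κ a.2 b.2
  have zl1 : ∀ a, lam₁ 0 a = 0 := fun a => by
    have := h₁.smul_left 0 a a
    rwa [zero_smul, zero_mul] at this
  have zl2 : ∀ a, lam₂ 0 a = 0 := fun a => by
    have := h₂.smul_left 0 a a
    rwa [zero_smul, zero_mul] at this
  have zlκ : ∀ a, κ 0 a = 0 := fun a => by
    have := hκ.smul_left 0 a a
    rwa [zero_smul, zero_mul] at this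
  have zr1 : ∀ a, lam₁ a 0 = 0 := fun a => h₁.zero_of_zero (zl1 a)
  have zr2 : ∀ a, lam₂ a 0 = 0 := fun a => h₂.zero_of_zero (zl2 a)
  have zrκ : ∀ a, κ a 0 = 0 := fun a => hκ.zero_of_zero (zlκ a)
  have hT : IsHermitian lamT := by
    refine ⟨?_, ?_, ?_⟩
    · intro a b d
      change lam₁ (a.1 + b.1) d.1 + κ (a.2 + b.2) d.2 = _
      rw [h₁.add_left, hκ.add_left]
      change _ = (lam₁ a.1 d.1 + κ a.2 d.2) + (lam₁ b.1 d.1 + κ b.2 d.2)
      abel
    · intro r a b
      change lam₁ (r • a.1) b.1 + κ (r • a.2) b.2 = r * (lam₁ a.1 b.1 + κ a.2 b.2)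
      rw [h₁.smul_left, hκ.smul_left, mul_add]
    · intro a b
      change lam₁ b.1 a.1 + κ b.2 a.2 = adj (lam₁ a.1 b.1 + κ a.2 b.2)
      rw [adj_add, ← h₁.herm, ← hκ.herm]
  have hTp : PositiveFor φ lamT := by
    intro a ha
    change 0 < φ ((lam₁ a.1 a.1 + κ a.2 a.2).coeff 1)
    rw [MonoidAlgebra.coeff_add, Finsupp.add_apply, map_add]
    by_cases h0 : a.1 = 0
    · have h1 : a.2 ≠ 0 := fun h1 => ha (Prod.ext h0 h1)
      have h2 := pκ a.2 h1
      rw [h0, zl1, MonoidAlgebra.coeff_zero, Finsupp.coe_zero, Pi.zero_apply, map_zero, zero_add]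
      exact h2
    · have h2 := p₁ a.1 h0
      by_cases h1 : a.2 = 0
      · rw [h1, zlκ, MonoidAlgebra.coeff_zero, Finsupp.coe_zero, Pi.zero_apply, map_zero, add_zero]
        exact h2
      · have h3 := pκ a.2 h1
        omega
  let Q1 : Submodule (MonoidAlgebra R G) (M₁ × Q) := LinearMap.ker (LinearMap.fst _ M₁ Q)
  let P1 : Submodule (MonoidAlgebra R G) (M₁ × Q) := LinearMap.ker (LinearMap.snd _ M₁ Q)
  let Q2 : Submodule (MonoidAlgebra R G) (M₁ × Q) :=
    LinearMap.ker ((LinearMap.fst _ M₂ Q) ∘ₗ E.toLinearMap)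
  let P2 : Submodule (MonoidAlgebra R G) (M₁ × Q) :=
    LinearMap.ker ((LinearMap.snd _ M₂ Q) ∘ₗ E.toLinearMap)
  have mQ1 : ∀ a, a ∈ Q1 ↔ a.1 = 0 := fun a => LinearMap.mem_ker
  have mP1 : ∀ a, a ∈ P1 ↔ a.2 = 0 := fun a => LinearMap.mem_ker
  have mQ2 : ∀ a, a ∈ Q2 ↔ (E a).1 = 0 := fun a => LinearMap.mem_ker
  have mP2 : ∀ a, a ∈ P2 ↔ (E a).2 = 0 := fun a => LinearMap.mem_ker
  have s1 : Splits lamT P1 Q1 := by
    refine ⟨?_, ?_⟩
    · intro a ha b hb
      rw [mP1] at ha
      rw [mQ1] at hb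
      change lam₁ a.1 b.1 + κ a.2 b.2 = 0
      rw [ha, hb, zr1, zlκ, add_zero]
    · rw [eq_top_iff]
      intro a _
      refine Submodule.mem_sup.2 ⟨(a.1, 0), (mP1 _).2 rfl, (0, a.2), (mQ1 _).2 rfl, ?_⟩
      simp
  have s2 : Splits lamT P2 Q2 := by
    refine ⟨?_, ?_⟩
    · intro a ha b hb
      rw [mP2] at ha
      rw [mQ2] at hb
      change lam₁ a.1 b.1 + κ a.2 b.2 = 0
      rw [← hE, ha, hb, zr2, zlκ, add_zero]
    · rw [eq_top_iff]
      intro a _
      refine Submodule.mem_sup.2 ⟨E.symm ((E a).1, 0), (mP2 _).2 (by simp),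
        E.symm (0, (E a).2), (mQ2 _).2 (by simp), ?_⟩
      rw [← map_add]
      apply E.injective
      simp
  let α : Q1 ≃ₗ[MonoidAlgebra R G] Q2 :=
    LinearEquiv.ofLinearMap
      (LinearMap.codRestrict Q2 ((E.symm.toLinearMap ∘ₗ LinearMap.inr _ M₂ Q) ∘ₗ
        LinearMap.snd _ M₁ Q ∘ₗ Q1.subtype) (fun a => (mQ2 _).2 (by simp)))
      (LinearMap.codRestrict Q1 ((LinearMap.inr _ M₁ Q) ∘ₗ (LinearMap.snd _ M₂ Q) ∘ₗ
        E.toLinearMap ∘ₗ Q2.subtype) (fun a => (mQ1 _).2 (by simp)))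
      (by
        apply LinearMap.ext
        intro a
        apply Subtype.ext
        apply E.injective
        have ha := (mQ2 _).1 a.2
        change E (E.symm ((0 : M₂), (E a).2)) = E a
        rw [LinearEquiv.apply_symm_apply]
        exact Prod.ext ha.symm rfl)
      (by
        apply LinearMap.ext
        intro a
        apply Subtype.ext
        have ha := (mQ1 _).1 a.2
        change ((0 : M₁), (E (E.symm ((0 : M₂), (a : M₁ × Q).2))).2) = (a : M₁ × Q)
        rw [LinearEquiv.apply_symm_apply]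
        exact Prod.ext ha.symm rfl)
  have hα1 : ∀ a : Q1, (α a : M₁ × Q) = E.symm ((0 : M₂), (a : M₁ × Q).2) := fun a => rfl
  have hEs : ∀ a b, lamT (E.symm a) (E.symm b) = lam₂ a.1 b.1 + κ a.2 b.2 := by
    intro a b
    have := hE (E.symm a) (E.symm b)
    rw [LinearEquiv.apply_symm_apply, LinearEquiv.apply_symm_apply] at this
    exact this.symm
  obtain ⟨β, hβ1, hβ2⟩ := witt_group φ hT hTp P1 Q1 P2 Q2 s1 s2 α (by
    intro a b
    have ha := (mQ1 _).1 a.2
    rw [hα1, hα1, hEs]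
    change lam₂ 0 0 + κ (a : M₁ × Q).2 (b : M₁ × Q).2 =
      lam₁ (a : M₁ × Q).1 (b : M₁ × Q).1 + κ (a : M₁ × Q).2 (b : M₁ × Q).2
    rw [ha, zl1, zl2])
  let S : (M₁ × Q) ≃ₗ[MonoidAlgebra R G] (M₂ × Q) := β.trans E
  have hS : ∀ a b, lam₂ (S a).1 (S b).1 + κ (S a).2 (S b).2 = lam₁ a.1 b.1 + κ a.2 b.2 := by
    intro a b
    change lam₂ (E (β a)).1 (E (β b)).1 + κ (E (β a)).2 (E (β b)).2 = _
    rw [hE]
    exact hβ1 a b
  have hSQ : ∀ q : Q, S (0, q) = (0, q) := by
    intro q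
    have := hβ2 ⟨((0 : M₁), q), (mQ1 _).2 rfl⟩
    change E (β ((0 : M₁), q)) = _
    rw [this, hα1, LinearEquiv.apply_symm_apply]
  have hSx : ∀ m : M₁, (S (m, 0)).2 = 0 := by
    intro m
    have h1 : κ (S (m, 0)).2 (S (m, 0)).2 = 0 := by
      have h2 := hS (m, 0) (0, (S (m, 0)).2)
      rw [hSQ] at h2
      simp only at h2
      rw [zr2, zr1, zlκ, zero_add, zero_add] at h2
      exact h2
    by_contra hne
    have := pκ _ hne
    rw [h1, MonoidAlgebra.coeff_zero, Finsupp.coe_zero, Pi.zero_apply, map_zero] at this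
    exact lt_irrefl _ this
  have hSy : ∀ m : M₂, (S.symm (m, 0)).2 = 0 := by
    intro m
    have h1 : κ (S.symm (m, 0)).2 (S.symm (m, 0)).2 = 0 := by
      have h2 := hS (S.symm (m, 0)) (0, (S.symm (m, 0)).2)
      rw [hSQ, LinearEquiv.apply_symm_apply] at h2
      simp only at h2
      rw [zr2, zlκ, zr1, zero_add, zero_add] at h2
      exact h2.symm
    by_contra hne
    have := pκ _ hne
    rw [h1, MonoidAlgebra.coeff_zero, Finsupp.coe_zero, Pi.zero_apply, map_zero] at this
    exact lt_irrefl _ this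
  refine ⟨LinearEquiv.ofLinearMap
    (LinearMap.fst _ M₂ Q ∘ₗ S.toLinearMap ∘ₗ LinearMap.inl _ M₁ Q)
    (LinearMap.fst _ M₁ Q ∘ₗ S.symm.toLinearMap ∘ₗ LinearMap.inl _ M₂ Q) ?_ ?_, ?_⟩
  · apply LinearMap.ext
    intro m
    change (S ((S.symm (m, 0)).1, 0)).1 = m
    have : ((S.symm (m, 0)).1, (0 : Q)) = S.symm (m, 0) := Prod.ext rfl (hSy m).symm
    rw [this, LinearEquiv.apply_symm_apply]
  · apply LinearMap.ext
    intro m
    change (S.symm ((S (m, 0)).1, 0)).1 = m
    have : ((S (m, 0)).1, (0 : Q)) = S (m, 0) := Prod.ext rfl (hSx m).symm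
    rw [this, LinearEquiv.symm_apply_apply]
  · intro m n
    change lam₂ (S (m, 0)).1 (S (n, 0)).1 = lam₁ m n
    have h1 := hS (m, 0) (n, 0)
    rw [hSx, hSx, zlκ] at h1
    simp only [add_zero] at h1
    exact h1

end Cancel

end Pool.Agent.TH254.DK
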