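import Pool.Agent.TH254.DK.Comp

/-!
The Witt extension theorem for positive forms on finitely generated modules.
-/

set_option autoImplicit false

namespace Pool.Agent.TH254.DK

universe u v w x

variable {M : Type v} {B : Type u} [AddCommGroup M] [AddCommGroup B]
variable {A : Type w} [Ring A] [Module A M]

namespace Core

variable (c : Core M B) (hsm : ∀ (a : A) (x y : M), c.b x y = 0 → c.b (a • x) y = 0)

/-- orthogonal decomposition into two submodules -/
structure Two (P Q : Submodule A M) : Prop where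
  orth : ∀ x ∈ P, ∀ y ∈ Q, c.b x y = 0
  sup : P ⊔ Q = ⊤

lemma le_or_le {P Q : Submodule A M} (h : c.Two P Q) (i : c.I) :
    c.C hsm i ≤ P ∨ c.C hsm i ≤ Q := by
  obtain ⟨f, hf⟩ := c.C_finest hsm (fun t : Bool => if t then P else Q) (by
    intro i j hij x hx y hy
    cases i <;> cases j
    · exact absurd rfl hij
    · exact c.symm0 _ _ (h.orth y hy x hx)
    · exact h.orth x hx y hy
    · exact absurd rfl hij) (by
    rw [iSup_bool_eq]
    exact h.sup)
  have := hf i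
  cases hfi : f i with
  | false => rw [hfi] at this; right; exact this
  | true => rw [hfi] at this; left; exact this

lemma not_both {P Q : Submodule A M} (h : c.Two P Q) (i : c.I) (h1 : c.C hsm i ≤ P)
    (h2 : c.C hsm i ≤ Q) : False := by
  apply c.C_ne_bot hsm i
  rw [eq_bot_iff]
  intro x hx
  rw [Submodule.mem_bot]
  exact c.eq_zero_of_self (h.orth x (h1 hx) x (h2 hx))

lemma Two.disjoint {c : Core M B} {P Q : Submodule A M} (h : c.Two P Q) {x : M} (hp : x ∈ P)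
    (hq : x ∈ Q) : x = 0 := c.eq_zero_of_self (h.orth x hp x hq)

lemma Two.symm {c : Core M B} {P Q : Submodule A M} (h : c.Two P Q) : c.Two Q P :=
  ⟨fun x hx y hy => c.symm0 _ _ (h.orth y hy x hx), by rw [sup_comm]; exact h.sup⟩

/-- a summand is generated by its components -/
lemma sup_of_two {P Q : Submodule A M} (h : c.Two P Q) :
    (⨆ i : {i // c.C hsm i ≤ Q}, c.C hsm (i : c.I)) = Q := by
  refine le_antisymm (iSup_le fun i => i.2) ?_
  intro y hy
  have h1 : (⊤ : Submodule A M) ≤ (⨆ i : {i // c.C hsm i ≤ P}, c.C hsm (i : c.I)) ⊔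
      (⨆ i : {i // c.C hsm i ≤ Q}, c.C hsm (i : c.I)) := by
    rw [← c.C_sup hsm]
    refine iSup_le fun i => ?_
    rcases c.le_or_le hsm h i with hi | hi
    · exact (le_iSup (fun i : {i // c.C hsm i ≤ P} => c.C hsm (i : c.I)) ⟨i, hi⟩).trans
        le_sup_left
    · exact (le_iSup (fun i : {i // c.C hsm i ≤ Q} => c.C hsm (i : c.I)) ⟨i, hi⟩).trans
        le_sup_right
  obtain ⟨u, hu, v, hv, huv⟩ := Submodule.mem_sup.1 (h1 (Submodule.mem_top : y ∈ ⊤))
  have hu' : u ∈ P := (iSup_le fun i : {i // c.C hsm i ≤ P} => i.2) hu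
  have hv' : v ∈ Q := (iSup_le fun i : {i // c.C hsm i ≤ Q} => i.2) hv
  have hu0 : u = 0 := by
    refine h.disjoint hu' ?_
    have : u = y - v := by rw [← huv]; abel
    rw [this]
    exact Submodule.sub_mem _ hy hv'
  rw [← huv, hu0, zero_add]
  exact hv

/-- an isometry between orthogonal summands maps components into components -/
lemma map_comp {P Q P' Q' : Submodule A M} (h : c.Two P Q) (h' : c.Two P' Q')
    (α : Q ≃ₗ[A] Q') (hα : ∀ x y : Q, c.b (α x : M) (α y : M) = c.b (x : M) (y : M))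
    (o : c.I) (ho : c.C hsm o ≤ Q') :
    ∃ i, c.C hsm i ≤ Q ∧ ∀ x (hx : x ∈ c.C hsm o), (α.symm ⟨x, ho hx⟩ : M) ∈ c.C hsm i := by
  let N : Option {i // c.C hsm i ≤ Q} → Submodule A M := fun t =>
    match t with
    | none => P'
    | some i => ((c.C hsm (i : c.I)).comap Q.subtype).map (Q'.subtype ∘ₗ α.toLinearMap)
  have hN : ∀ (i : {i // c.C hsm i ≤ Q}) (x : M), x ∈ N (some i) ↔
      ∃ y : Q, (y : M) ∈ c.C hsm (i : c.I) ∧ (α y : M) = x := by
    intro i x
    simp only [N, Submodule.mem_map, Submodule.mem_comap]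
    rfl
  obtain ⟨f, hf⟩ := c.C_finest hsm N (by
    rintro (_ | i) (_ | j) hij x hx y hy
    · exact absurd rfl hij
    · obtain ⟨z, _, rfl⟩ := (hN j y).1 hy
      exact h'.orth x hx _ (α z).2
    · obtain ⟨z, _, rfl⟩ := (hN i x).1 hx
      exact c.symm0 _ _ (h'.orth y hy _ (α z).2)
    · obtain ⟨z, hz, rfl⟩ := (hN i x).1 hx
      obtain ⟨t, ht, rfl⟩ := (hN j y).1 hy
      rw [hα]
      refine c.C_orth hsm ?_ hz ht
      intro hh
      exact hij (by rw [Subtype.ext hh])) (by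
    rw [eq_top_iff, ← h'.sup]
    refine sup_le (le_iSup N none) ?_
    intro x hx
    have h1 : ∀ y : M, y ∈ (⨆ i : {i // c.C hsm i ≤ Q}, c.C hsm (i : c.I)) →
        ∀ hy : y ∈ Q, (α ⟨y, hy⟩ : M) ∈ ⨆ t, N t := by
      intro y hy
      induction hy using Submodule.iSup_induction' with
      | mem i y hy =>
        intro hyQ
        exact (le_iSup N (some i)) ((hN i _).2 ⟨⟨y, hyQ⟩, hy, rfl⟩)
      | zero =>
        intro hyQ
        have : (⟨0, hyQ⟩ : Q) = 0 := rfl
        rw [this, map_zero]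
        exact Submodule.zero_mem _
      | add y z hy hz ihy ihz =>
        intro hyQ
        have hyQ' : y ∈ Q := by rw [← c.sup_of_two hsm h]; exact hy
        have hzQ' : z ∈ Q := by rw [← c.sup_of_two hsm h]; exact hz
        have : (⟨y + z, hyQ⟩ : Q) = ⟨y, hyQ'⟩ + ⟨z, hzQ'⟩ := rfl
        rw [this, map_add, Submodule.coe_add]
        exact Submodule.add_mem _ (ihy hyQ') (ihz hzQ')
    have h2 := h1 (α.symm ⟨x, hx⟩ : M) (by
      rw [c.sup_of_two hsm h]; exact (α.symm ⟨x, hx⟩).2) (α.symm ⟨x, hx⟩).2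
    simpa using h2)
  have hfo := hf o
  cases hfi : f o with
  | none =>
    exfalso
    rw [hfi] at hfo
    exact c.not_both hsm h' o hfo ho
  | some i =>
    rw [hfi] at hfo
    refine ⟨i, i.2, fun x hx => ?_⟩
    obtain ⟨y, hy, hyx⟩ := (hN i x).1 (hfo hx)
    have : (⟨x, ho hx⟩ : Q') = α y := Subtype.ext hyx.symm
    rw [this, LinearEquiv.symm_apply_apply]
    exact hy

/-- an isometry between orthogonal summands permutes the components -/
lemma exists_bij {P Q P' Q' : Submodule A M} (h : c.Two P Q) (h' : c.Two P' Q')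
    (α : Q ≃ₗ[A] Q') (hα : ∀ x y : Q, c.b (α x : M) (α y : M) = c.b (x : M) (y : M)) :
    ∃ σ : {i // c.C hsm i ≤ Q} ≃ {i // c.C hsm i ≤ Q'},
      ∀ (i : {i // c.C hsm i ≤ Q}) (x : Q), (x : M) ∈ c.C hsm (i : c.I) ↔
        (α x : M) ∈ c.C hsm (σ i : c.I) := by
  have hα' : ∀ x y : Q', c.b (α.symm x : M) (α.symm y : M) = c.b (x : M) (y : M) := by
    intro x y
    rw [← hα, LinearEquiv.apply_symm_apply, LinearEquiv.apply_symm_apply]
  have h1 : ∀ i : {i // c.C hsm i ≤ Q}, ∃ o : {i // c.C hsm i ≤ Q'},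
      ∀ x : Q, (x : M) ∈ c.C hsm (i : c.I) → (α x : M) ∈ c.C hsm (o : c.I) := by
    intro i
    obtain ⟨o, ho, hx⟩ := c.map_comp hsm h' h α.symm hα' i i.2
    refine ⟨⟨o, ho⟩, fun x hxi => ?_⟩
    have := hx x hxi
    simpa using this
  have h2 : ∀ o : {i // c.C hsm i ≤ Q'}, ∃ i : {i // c.C hsm i ≤ Q},
      ∀ x : Q', (x : M) ∈ c.C hsm (o : c.I) → (α.symm x : M) ∈ c.C hsm (i : c.I) := by
    intro o
    obtain ⟨i, hi, hx⟩ := c.map_comp hsm h h' α hα o o.2
    exact ⟨⟨i, hi⟩, fun x hxo => hx x hxo⟩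
  choose s hs using h1
  choose t ht using h2
  have key : ∀ i j : c.I, (∃ x, x ≠ 0 ∧ x ∈ c.C hsm i ∧ x ∈ c.C hsm j) → i = j := by
    rintro i j ⟨x, hx0, hxi, hxj⟩
    by_contra hij
    exact hx0 (c.eq_zero_of_self (c.C_orth hsm hij hxi hxj))
  have hne : ∀ i : c.I, ∃ x, x ≠ 0 ∧ x ∈ c.C hsm i := by
    intro i
    obtain ⟨x, hx, hx0⟩ := (Submodule.ne_bot_iff _).1 (c.C_ne_bot hsm i)
    exact ⟨x, hx0, hx⟩
  have hts : ∀ i, t (s i) = i := by
    intro i
    obtain ⟨x, hx0, hx⟩ := hne (i : c.I)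
    have hxQ : x ∈ Q := i.2 hx
    have h3 := ht (s i) (α ⟨x, hxQ⟩) (hs i ⟨x, hxQ⟩ hx)
    rw [LinearEquiv.symm_apply_apply] at h3
    exact Subtype.ext (key _ _ ⟨x, hx0, h3, hx⟩)
  have hst : ∀ o, s (t o) = o := by
    intro o
    obtain ⟨x, hx0, hx⟩ := hne (o : c.I)
    have hxQ : x ∈ Q' := o.2 hx
    have h3 := hs (t o) (α.symm ⟨x, hxQ⟩) (ht o ⟨x, hxQ⟩ hx)
    rw [LinearEquiv.apply_symm_apply] at h3
    exact Subtype.ext (key _ _ ⟨x, hx0, h3, hx⟩)
  refine ⟨⟨s, t, hts, hst⟩, fun i x => ⟨hs i x, fun hx => ?_⟩⟩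
  have h3 := ht (s i) (α x) hx
  rw [LinearEquiv.symm_apply_apply, hts] at h3
  exact h3

/-- isometry of components -/
def isoSetoid : Setoid c.I where
  r i j := ∃ θ : c.C hsm i ≃ₗ[A] c.C hsm j,
    ∀ x y : c.C hsm i, c.b (θ x : M) (θ y : M) = c.b (x : M) (y : M)
  iseqv :=
    { refl := fun i => ⟨LinearEquiv.refl A _, fun _ _ => rfl⟩
      symm := by
        rintro i j ⟨θ, hθ⟩
        refine ⟨θ.symm, fun x y => ?_⟩
        rw [← hθ, LinearEquiv.apply_symm_apply, LinearEquiv.apply_symm_apply]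
      trans := by
        rintro i j k ⟨θ, hθ⟩ ⟨η, hη⟩
        refine ⟨θ.trans η, fun x y => ?_⟩
        rw [LinearEquiv.trans_apply, LinearEquiv.trans_apply, hη, hθ] }

/-- restriction of an isometry to a component -/
lemma exists_restrict {Q Q' : Submodule A M}
    (α : Q ≃ₗ[A] Q') (hα : ∀ x y : Q, c.b (α x : M) (α y : M) = c.b (x : M) (y : M))
    (i j : c.I) (hi : c.C hsm i ≤ Q) (hj : c.C hsm j ≤ Q')
    (hij : ∀ x : Q, (x : M) ∈ c.C hsm i ↔ (α x : M) ∈ c.C hsm j) :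
    ∃ θ : c.C hsm i ≃ₗ[A] c.C hsm j,
      (∀ x y : c.C hsm i, c.b (θ x : M) (θ y : M) = c.b (x : M) (y : M)) ∧
      ∀ x : c.C hsm i, (θ x : M) = α ⟨x, hi x.2⟩ := by
  let f : c.C hsm i →ₗ[A] c.C hsm j :=
    { toFun := fun x => ⟨α ⟨x, hi x.2⟩, (hij _).1 x.2⟩
      map_add' := by
        intro x y
        apply Subtype.ext
        change (α (⟨x, hi x.2⟩ + ⟨y, hi y.2⟩ : Q) : M) = (α ⟨x, hi x.2⟩ : M) + (α ⟨y, hi y.2⟩ : M)
        rw [map_add]
        rfl
      map_smul' := by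
        intro a x
        apply Subtype.ext
        change (α (a • ⟨x, hi x.2⟩ : Q) : M) = a • (α ⟨x, hi x.2⟩ : M)
        rw [map_smul]
        rfl }
  have hf : Function.Bijective f := by
    constructor
    · intro x y hxy
      have h1 : α ⟨x, hi x.2⟩ = α ⟨y, hi y.2⟩ :=
        Subtype.ext (congrArg (fun z : c.C hsm j => (z : M)) hxy)
      have h2 := α.injective h1
      exact Subtype.ext (congrArg (fun z : Q => (z : M)) h2)
    · intro z
      have hz : (z : M) ∈ Q' := hj z.2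
      have h1 : ((α.symm ⟨z, hz⟩ : Q) : M) ∈ c.C hsm i := by
        rw [hij, LinearEquiv.apply_symm_apply]; exact z.2
      refine ⟨⟨_, h1⟩, ?_⟩
      apply Subtype.ext
      change (α ⟨((α.symm ⟨z, hz⟩ : Q) : M), _⟩ : M) = z
      have : (⟨((α.symm ⟨z, hz⟩ : Q) : M), hi h1⟩ : Q) = α.symm ⟨z, hz⟩ := rfl
      rw [this, LinearEquiv.apply_symm_apply]
  refine ⟨LinearEquiv.ofBijective f hf, fun x y => ?_, fun x => rfl⟩
  change c.b (α ⟨x, hi x.2⟩ : M) (α ⟨y, hi y.2⟩ : M) = _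
  rw [hα]

/-- gluing maps of the components -/
lemma exists_glue (θ : ∀ i : c.I, c.C hsm i →ₗ[A] M) :
    ∃ β : M →ₗ[A] M, ∀ (i : c.I) (x : c.C hsm i), β x = θ i x := by
  classical
  have h1 : iSupIndep (c.C hsm) := by
    intro i
    rw [Submodule.disjoint_def]
    intro x hx hx'
    have key : ∀ y, y ∈ (⨆ j : {j // j ≠ i}, c.C hsm j) → c.b x y = 0 := by
      intro y hy
      induction hy using Submodule.iSup_induction' with
      | mem j y hy => exact c.C_orth hsm (Ne.symm j.2) hx hy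
      | zero => exact map_zero _
      | add y z _ _ hy hz => rw [map_add, hy, hz, add_zero]
    refine c.eq_zero_of_self (key x ?_)
    rw [iSup_subtype]
    exact hx'
  have h2 := DirectSum.isInternal_submodule_of_iSupIndep_of_iSup_eq_top h1 (c.C_sup hsm)
  let e : (DirectSum c.I fun i => c.C hsm i) ≃ₗ[A] M :=
    LinearEquiv.ofBijective (DirectSum.coeLinearMap (c.C hsm)) h2
  refine ⟨(DirectSum.toModule A c.I M θ) ∘ₗ e.symm.toLinearMap, fun i x => ?_⟩
  have h3 : e (DirectSum.lof A c.I (fun i => c.C hsm i) i x) = (x : M) := by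
    exact DirectSum.coeLinearMap_lof (c.C hsm) i x
  have h4 : e.symm (x : M) = DirectSum.lof A c.I (fun i => c.C hsm i) i x := by
    rw [← h3, LinearEquiv.symm_apply_apply]
  rw [LinearMap.comp_apply]
  change DirectSum.toModule A c.I M θ (e.symm (x : M)) = _
  rw [h4, DirectSum.toModule_lof]

include hsm in
/-- **the Witt extension theorem** -/
theorem witt [Finite c.I] {P Q P' Q' : Submodule A M} (h : c.Two P Q) (h' : c.Two P' Q')
    (α : Q ≃ₗ[A] Q') (hα : ∀ x y : Q, c.b (α x : M) (α y : M) = c.b (x : M) (y : M)) :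
    ∃ β : M ≃ₗ[A] M, (∀ x y, c.b (β x) (β y) = c.b x y) ∧ ∀ x : Q, β x = α x := by
  obtain ⟨σ, hσ⟩ := c.exists_bij hsm h h' α hα
  obtain ⟨π, hπ1, hπ2⟩ := exists_perm (c.isoSetoid hsm) _ _ σ (fun i => by
    obtain ⟨θ, hθ, _⟩ := c.exists_restrict hsm α hα (i : c.I) (σ i : c.I) i.2 (σ i).2 (hσ i)
    exact ⟨θ, hθ⟩)
  have h1 : ∀ i : c.I, ∃ θ : c.C hsm i ≃ₗ[A] c.C hsm (π i),
      (∀ x y : c.C hsm i, c.b (θ x : M) (θ y : M) = c.b (x : M) (y : M)) ∧
      ∀ (hi : c.C hsm i ≤ Q) (x : c.C hsm i), (θ x : M) = α ⟨x, hi x.2⟩ := by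
    intro i
    by_cases hi : c.C hsm i ≤ Q
    · have h2 := hπ1 ⟨i, hi⟩
      rw [h2]
      obtain ⟨θ, hθ, hθ2⟩ := c.exists_restrict hsm α hα i (σ ⟨i, hi⟩ : c.I) hi (σ ⟨i, hi⟩).2
        (hσ ⟨i, hi⟩)
      exact ⟨θ, hθ, fun _ x => hθ2 x⟩
    · obtain ⟨θ, hθ⟩ := hπ2 i
      exact ⟨θ, hθ, fun hi' => absurd hi' hi⟩
  choose θ hθ1 hθ2 using h1
  obtain ⟨β, hβ⟩ := c.exists_glue hsm (fun i => (c.C hsm (π i)).subtype ∘ₗ (θ i).toLinearMap)
  have hβ' : ∀ (i : c.I) (x : c.C hsm i), β x = (θ i x : M) := fun i x => hβ i x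
  have hsup : ∀ x : M, x ∈ ⨆ i, c.C hsm i := fun x => by rw [c.C_sup hsm]; exact Submodule.mem_top
  have hiso : ∀ x y, c.b (β x) (β y) = c.b x y := by
    intro x y
    have hx := hsup x
    induction hx using Submodule.iSup_induction' with
    | zero => simp
    | add u v _ _ hu hv =>
      rw [map_add, map_add, map_add, AddMonoidHom.add_apply, AddMonoidHom.add_apply, hu, hv]
    | mem i x hx =>
      have hy := hsup y
      induction hy using Submodule.iSup_induction' with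
      | zero => simp
      | add u v _ _ hu hv => rw [map_add, map_add, map_add, hu, hv]
      | mem j y hy =>
        have e1 := hβ' i ⟨x, hx⟩
        have e2 := hβ' j ⟨y, hy⟩
        change β x = _ at e1
        change β y = _ at e2
        rw [e1, e2]
        by_cases hij : i = j
        · subst hij
          exact hθ1 i ⟨x, hx⟩ ⟨y, hy⟩
        · rw [c.C_orth hsm hij hx hy]
          exact c.C_orth hsm (fun hh => hij (π.injective hh)) (θ i ⟨x, hx⟩).2 (θ j ⟨y, hy⟩).2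
  have hbij : Function.Bijective β := by
    constructor
    · rw [injective_iff_map_eq_zero]
      intro x hx
      refine c.eq_zero_of_self ?_
      rw [← hiso, hx]
      simp
    · rw [← LinearMap.range_eq_top, eq_top_iff, ← c.C_sup hsm]
      refine iSup_le fun j y hy => ?_
      obtain ⟨i, rfl⟩ := π.surjective j
      refine ⟨((θ i).symm ⟨y, hy⟩ : c.C hsm i), ?_⟩
      rw [hβ', LinearEquiv.apply_symm_apply]
  refine ⟨LinearEquiv.ofBijective β hbij, hiso, ?_⟩
  rintro ⟨x, hx⟩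
  change β x = (α ⟨x, hx⟩ : M)
  have hx' : x ∈ ⨆ i : {i // c.C hsm i ≤ Q}, c.C hsm (i : c.I) := by
    rw [c.sup_of_two hsm h]; exact hx
  induction hx' using Submodule.iSup_induction' with
  | mem i y hy =>
    have e1 := hβ' i ⟨y, hy⟩
    change β y = _ at e1
    rw [e1, hθ2 i i.2]
  | zero =>
    have : (⟨0, hx⟩ : Q) = 0 := rfl
    rw [this, map_zero, map_zero]
    rfl
  | add u v hu hv ihu ihv =>
    have hu' : u ∈ Q := by rw [← c.sup_of_two hsm h]; exact hu
    have hv' : v ∈ Q := by rw [← c.sup_of_two hsm h]; exact hv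
    have : (⟨u + v, hx⟩ : Q) = ⟨u, hu'⟩ + ⟨v, hv'⟩ := rfl
    rw [this, map_add, map_add, ihu hu', ihv hv']
    rfl

end Core

end Pool.Agent.TH254.DK
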